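import Pool.Agent.H81.Oct.O10
import Pool.Agent.H94.DL.Defs

/-! # O11: the packing density of the smoothed octagon is at most Reinhardt's constant -/

set_option autoImplicit false

namespace Octa

open MeasureTheory Filter Topology Pool.H61.Sm Pool.H94.DL

/-- the constant in the form of the frozen statement -/
theorem cR_eq : aK / (4 * r2 - 2) =
    (8 - Real.sqrt 32 - Real.log 2) / (Real.sqrt 8 - 1) := by
  have hr := r2_gt6
  have h32 : Real.sqrt 32 = 4 * r2 := by
    rw [show (32 : ℝ) = 4 ^ 2 * 2 by norm_num, Real.sqrt_mul (by norm_num),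
      Real.sqrt_sq (by norm_num)]
    rfl
  have h8 : Real.sqrt 8 = 2 * r2 := by
    rw [show (8 : ℝ) = 2 ^ 2 * 2 by norm_num, Real.sqrt_mul (by norm_num),
      Real.sqrt_sq (by norm_num)]
    rfl
  rw [h32, h8]
  unfold aK
  rw [div_eq_div_iff (by linarith) (by linarith)]
  ring

/-- The area of the members of a packing by smoothed octagons in a disc. -/
theorem oct_area_le {ι : Type} {e : ι → E2 ≃ᵢ E2} (he : IsPacking octP e) {r : ℝ} (hr : 0 < r) :
    ∑' i, volume (e i '' octP ∩ Metric.closedBall 0 r) ≤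
      ENNReal.ofReal (Real.pi * (r + 3 / 2 + Real.sqrt 2) ^ 2 / (4 * r2 - 2) * aK) := by
  have hne : ∀ i, (interior (e i '' octP)).Nonempty := by
    intro i
    have h1 : interior (e i '' octP) = e i '' interior octP :=
      ((e i).toHomeomorph.image_interior octP).symm
    rw [h1]
    exact octP_interior.image _
  have hinj : Function.Injective fun i => e i '' octP := by
    intro i j hij
    by_contra hne'
    have h1 : Disjoint (interior (e i '' octP)) (interior (e j '' octP)) := he hne'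
    simp only at hij
    rw [hij, disjoint_self] at h1
    have h2 := hne j
    rw [h1] at h2
    exact Set.not_nonempty_empty h2
  have h := plane_sum_le (Set.range fun i => e i '' octP) (by
    rintro _ ⟨i, rfl⟩
    exact ⟨e i, (e i).isometry, rfl⟩) (by
    rintro _ ⟨i, rfl⟩ _ ⟨j, rfl⟩ hij
    exact he (fun h => hij (by rw [h]))) hr
  refine le_trans (le_of_eq ?_) h
  let E : ι ≃ (Set.range fun i => e i '' octP) := Equiv.ofInjective _ hinj
  rw [← E.tsum_eq]
  rfl

private theorem O11_tendsto : Tendsto (fun r : ℝ => (1 + (3 / 2 + Real.sqrt 2) * r⁻¹) ^ 2 *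
    (aK / (4 * r2 - 2))) atTop (𝓝 (aK / (4 * r2 - 2))) := by
  have h1 : Tendsto (fun r : ℝ => (1 + (3 / 2 + Real.sqrt 2) * r⁻¹) ^ 2 * (aK / (4 * r2 - 2)))
      atTop (𝓝 ((1 + (3 / 2 + Real.sqrt 2) * 0) ^ 2 * (aK / (4 * r2 - 2)))) :=
    (((tendsto_inv_atTop_zero.const_mul (3 / 2 + Real.sqrt 2)).const_add 1).pow 2).mul_const _
  rw [mul_zero, add_zero, one_pow, one_mul] at h1
  exact h1

theorem oct_quot_le {ι : Type} {e : ι → E2 ≃ᵢ E2} (he : IsPacking octP e) {r : ℝ} (hr : 0 < r) :
    (∑' i, volume (e i '' octP ∩ Metric.closedBall 0 r)).toReal / (Real.pi * r ^ 2) ≤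
      (1 + (3 / 2 + Real.sqrt 2) * r⁻¹) ^ 2 * (aK / (4 * r2 - 2)) := by
  have hM : 0 < 4 * r2 - 2 := by linarith [r2_gt6]
  have ha := aK_pos
  rw [div_le_iff₀ (by positivity)]
  refine (ENNReal.toReal_le_of_le_ofReal (by positivity) (oct_area_le he hr)).trans (le_of_eq ?_)
  have hr' : r ≠ 0 := hr.ne'
  have hM' : 4 * r2 - 2 ≠ 0 := hM.ne'
  field_simp
  ring

/-- The upper density of every packing is at most Reinhardt's constant. -/
theorem oct_upper {ι : Type} {e : ι → E2 ≃ᵢ E2} (he : IsPacking octP e) {c : ℝ}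
    (hc : (8 - Real.sqrt 32 - Real.log 2) / (Real.sqrt 8 - 1) < c) :
    ∀ᶠ r : ℝ in atTop,
      (∑' i, volume (e i '' octP ∩ Metric.closedBall 0 r)).toReal / (Real.pi * r ^ 2) < c := by
  rw [← cR_eq] at hc
  filter_upwards [eventually_gt_atTop 0, O11_tendsto.eventually_lt_const hc] with r hr h
  exact (oct_quot_le he hr).trans_lt h

theorem oct_density_le {ι : Type} {e : ι → E2 ≃ᵢ E2} (he : IsPacking octP e) {d : ℝ}
    (hd : HasDensity octP e d) :
    d ≤ (8 - Real.sqrt 32 - Real.log 2) / (Real.sqrt 8 - 1) := by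
  rw [← cR_eq]
  refine le_of_tendsto_of_tendsto hd O11_tendsto ?_
  filter_upwards [eventually_gt_atTop 0] with r hr
  exact oct_quot_le he hr

theorem oct_packingDensity_le :
    packingDensity octP ≤ (8 - Real.sqrt 32 - Real.log 2) / (Real.sqrt 8 - 1) := by
  refine Real.sSup_le ?_ ?_
  · rintro d ⟨ι, e, he, hd⟩
    exact oct_density_le he hd
  · rw [← cR_eq]
    have hM : 0 < 4 * r2 - 2 := by linarith [r2_gt6]
    have ha := aK_pos
    positivity

end Octa
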