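import Pool.Agent.H61.Sm.M3
import Pool.Agent.H61.Sm.M6

/-! # O1: the support function of the smoothed octagon (project: packings by smoothed octagons) -/

set_option autoImplicit false

namespace Octa

open Pool.H61.Sm Set

/-- The support function of the smoothed octagon in the direction `φ`. -/
noncomputable def hs (φ : ℝ) : ℝ :=
  sSup ((fun p : ℝ × ℝ => p.1 * Real.cos φ + p.2 * Real.sin φ) '' K0)

private theorem O1_cont (φ : ℝ) :
    Continuous fun p : ℝ × ℝ => p.1 * Real.cos φ + p.2 * Real.sin φ := by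
  fun_prop

theorem K0_nonempty : K0.Nonempty := ⟨0, mem_of_mem_nhds K0_nhds⟩

theorem le_hs {p : ℝ × ℝ} (hp : p ∈ K0) (φ : ℝ) :
    p.1 * Real.cos φ + p.2 * Real.sin φ ≤ hs φ :=
  le_csSup (K0_compact.image (O1_cont φ)).bddAbove (mem_image_of_mem _ hp)

theorem hs_attain (φ : ℝ) : ∃ p ∈ K0, hs φ = p.1 * Real.cos φ + p.2 * Real.sin φ := by
  obtain ⟨p, hp, h⟩ := K0_compact.exists_sSup_image_eq K0_nonempty (O1_cont φ).continuousOn
  exact ⟨p, hp, h⟩

/-- The support function is sine convex. -/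
theorem hs_conv {x y z : ℝ} (h1 : x ≤ y) (h2 : y ≤ z) (h3 : z - x < Real.pi) :
    hs y * Real.sin (z - x) ≤ hs x * Real.sin (z - y) + hs z * Real.sin (y - x) := by
  obtain ⟨p, hp, h⟩ := hs_attain y
  have e : hs y * Real.sin (z - x) =
      (p.1 * Real.cos x + p.2 * Real.sin x) * Real.sin (z - y) +
      (p.1 * Real.cos z + p.2 * Real.sin z) * Real.sin (y - x) := by
    rw [h, Real.sin_sub, Real.sin_sub, Real.sin_sub]
    ring
  rw [e]
  have s1 : 0 ≤ Real.sin (z - y) := Real.sin_nonneg_of_nonneg_of_le_pi (by linarith) (by linarith)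
  have s2 : 0 ≤ Real.sin (y - x) := Real.sin_nonneg_of_nonneg_of_le_pi (by linarith) (by linarith)
  exact add_le_add (mul_le_mul_of_nonneg_right (le_hs hp x) s1)
    (mul_le_mul_of_nonneg_right (le_hs hp z) s2)

private theorem O1_cos (φ : ℝ) : Real.cos (φ + Real.pi / 4) =
    r2 / 2 * (Real.cos φ - Real.sin φ) := by
  rw [Real.cos_add, Real.cos_pi_div_four, Real.sin_pi_div_four]
  unfold r2
  ring

private theorem O1_sin (φ : ℝ) : Real.sin (φ + Real.pi / 4) =
    r2 / 2 * (Real.cos φ + Real.sin φ) := by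
  rw [Real.sin_add, Real.cos_pi_div_four, Real.sin_pi_div_four]
  unfold r2
  ring

private theorem O1_rot (p : ℝ × ℝ) (φ : ℝ) :
    (rot p).1 * Real.cos (φ + Real.pi / 4) + (rot p).2 * Real.sin (φ + Real.pi / 4) =
    p.1 * Real.cos φ + p.2 * Real.sin φ := by
  rw [O1_cos, O1_sin]
  unfold rot
  have h := r2_sq
  linear_combination (1 / 2) * (p.1 * Real.cos φ + p.2 * Real.sin φ) * h

theorem hs_add (φ : ℝ) : hs (φ + Real.pi / 4) = hs φ := by
  apply le_antisymm
  · obtain ⟨p, hp, h⟩ := hs_attain (φ + Real.pi / 4)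
    have e : rot (rot^[7] p) = p := by
      have h8 := rot_eight p
      rwa [Function.iterate_succ_apply'] at h8
    have hq : rot^[7] p ∈ K0 := by
      rw [← K0_rot, e]
      exact hp
    have h1 := O1_rot (rot^[7] p) φ
    rw [e, ← h] at h1
    rw [h1]
    exact le_hs hq φ
  · obtain ⟨p, hp, h⟩ := hs_attain φ
    rw [h, ← O1_rot]
    exact le_hs ((K0_rot p).2 hp) _

theorem hs_int (φ : ℝ) (n : ℤ) : hs (φ + n * (Real.pi / 4)) = hs φ := by
  have h : Function.Periodic hs (Real.pi / 4) := hs_add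
  exact h.int_mul n φ

/-- Every angle is a multiple of `45` degrees plus an angle of `[0, 45)` degrees. -/
theorem angle_red (φ : ℝ) : ∃ (n : ℤ) (t : ℝ), 0 ≤ t ∧ t < Real.pi / 4 ∧
    φ = t + n * (Real.pi / 4) := by
  have hp : 0 < Real.pi / 4 := by positivity
  refine ⟨⌊φ / (Real.pi / 4)⌋, φ - ⌊φ / (Real.pi / 4)⌋ * (Real.pi / 4), ?_, ?_, by ring⟩
  · have h := Int.floor_le (φ / (Real.pi / 4))
    rw [le_div_iff₀ hp] at h
    linarith
  · have h := Int.lt_floor_add_one (φ / (Real.pi / 4))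
    rw [div_lt_iff₀ hp] at h
    linarith

theorem cs_range {φ : ℝ} (h0 : 0 ≤ φ) (h1 : φ ≤ Real.pi / 4) :
    0 ≤ Real.sin φ ∧ Real.sin φ ≤ r2 / 2 ∧ r2 / 2 ≤ Real.cos φ ∧ Real.cos φ ≤ 1 := by
  have hpi := Real.pi_pos
  refine ⟨Real.sin_nonneg_of_nonneg_of_le_pi h0 (by linarith), ?_, ?_, Real.cos_le_one φ⟩
  · have h := Real.sin_le_sin_of_le_of_le_pi_div_two (by linarith : -(Real.pi / 2) ≤ φ)
      (by linarith : Real.pi / 4 ≤ Real.pi / 2) h1
    rwa [Real.sin_pi_div_four] at h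
  · have h := Real.cos_le_cos_of_nonneg_of_le_pi h0 (by linarith : Real.pi / 4 ≤ Real.pi) h1
    rwa [Real.cos_pi_div_four] at h

theorem r2_gt6 : (1414213 / 1000000 : ℝ) < r2 := by
  unfold r2; rw [Real.lt_sqrt (by norm_num)]; norm_num

theorem r2_lt6 : r2 < (1414214 / 1000000 : ℝ) := by
  unfold r2; rw [Real.sqrt_lt' (by norm_num)]; norm_num

/-- The radical in the formula for the support function. -/
noncomputable def WW (φ : ℝ) : ℝ :=
  Real.sqrt (2 * (Real.sin φ + Real.cos φ) * Real.cos φ)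

theorem WW_sq {φ : ℝ} (h0 : 0 ≤ φ) (h1 : φ ≤ Real.pi / 4) :
    WW φ ^ 2 = 2 * (Real.sin φ + Real.cos φ) * Real.cos φ := by
  obtain ⟨a, -, b, -⟩ := cs_range h0 h1
  have hr := r2_pos
  unfold WW
  rw [Real.sq_sqrt]
  have : 0 < Real.cos φ := by linarith
  positivity

theorem hs_formula {φ : ℝ} (h0 : 0 ≤ φ) (h1 : φ ≤ Real.pi / 4) :
    hs φ = (1 + r2) * Real.cos φ + Real.sin φ - WW φ := by
  have hw := WW_sq h0 h1
  have hw0 : 0 ≤ WW φ := Real.sqrt_nonneg _
  obtain ⟨a, b, c, d⟩ := cs_range h0 h1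
  have hr := r2_gt
  have hr' := r2_lt
  have hr2 := r2_mul
  have hr2' := r2_sq
  generalize hW : WW φ = W at hw hw0
  have hcs := Real.sin_sq_add_cos_sq φ
  set s := Real.sin φ with hs_def
  set c' := Real.cos φ with hc_def
  have hc0 : 0 < c' := by linarith
  have hsc : s ≤ c' := by linarith
  -- bounds for W
  have w1 : r2 * c' ≤ W := by
    apply le_of_sq_le_sq _ hw0
    rw [hw, mul_pow, hr2']
    nlinarith
  have w2 : W ≤ 2 * c' := by
    apply le_of_sq_le_sq _ (by positivity)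
    rw [hw]
    nlinarith
  have hW0 : 0 < W := lt_of_lt_of_le (by positivity) w1
  set t := W / (2 * r2 * c') with ht
  have ht0 : 0 < t := by positivity
  have htm : t * (2 * r2 * c') = W := by
    rw [ht]
    field_simp
  have t1 : 1 / 2 ≤ t := by
    rw [ht, le_div_iff₀ (by positivity)]
    linarith
  have t2 : t ≤ r2 / 2 := by
    rw [ht, div_le_iff₀ (by positivity)]
    nlinarith
  have htt : 4 * c' * t ^ 2 = s + c' := by
    have h3 : (t * (2 * r2 * c')) ^ 2 = 2 * (s + c') * c' := by rw [htm, hw]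
    have h4 : (4 * c' * t ^ 2) * (2 * c') = (s + c') * (2 * c') := by
      calc (4 * c' * t ^ 2) * (2 * c') = (t * (2 * r2 * c')) ^ 2 := by
            linear_combination (-4 * c' ^ 2 * t ^ 2) * hr2'
        _ = (s + c') * (2 * c') := by rw [h3]; ring
    exact mul_right_cancel₀ (by positivity) h4
  apply le_antisymm
  · obtain ⟨p, hp, h⟩ := hs_attain φ
    rw [h]
    have h3 := hp 0 t t1 t2
    change 2 ≤ uc p / t + 2 * r2 * t * vc p at h3
    have h4 := mul_le_mul_of_nonneg_left h3 (by positivity : 0 ≤ r2 * c' * t)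
    have e1 : r2 * c' * t * 2 = W := by rw [← htm]; ring
    have e2 : r2 * c' * t * (uc p / t + 2 * r2 * t * vc p) =
        r2 * c' * uc p + (s + c') * vc p := by
      rw [← htt]
      field_simp
      linear_combination (2 * t ^ 2 * vc p) * hr2'
    rw [e1, e2] at h4
    unfold uc vc at h4
    have e3 : r2 * c' * (1 - r2 / 2 * (p.1 - p.2)) + (s + c') * (1 - p.2) =
        (1 + r2) * c' + s - (p.1 * c' + p.2 * s) := by
      linear_combination (-(c' * (p.1 - p.2)) / 2) * hr2'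
    linarith
  · have h3 := arc_mem (u := t) (v := r2 / 4 / t) t1 t2 (by field_simp)
    have h4 := le_hs h3 φ
    refine le_trans (le_of_eq ?_) h4
    simp only
    rw [← hs_def, ← hc_def]
    have e4 : r2 / 4 / t * (s + c') = W / 2 := by
      rw [← htt, ← htm]
      field_simp
    have e5 : r2 * t * c' = W / 2 := by rw [← htm]; ring
    linear_combination e4 + e5

theorem hs_zero : hs 0 = 1 := by
  rw [hs_formula le_rfl (by positivity)]
  unfold WW
  rw [Real.cos_zero, Real.sin_zero]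
  unfold r2
  norm_num

private theorem O1_one {φ : ℝ} (h0 : 0 ≤ φ) (h1 : φ ≤ Real.pi / 4) : 1 ≤ hs φ := by
  rw [hs_formula h0 h1]
  have hw := WW_sq h0 h1
  obtain ⟨a, b, c, d⟩ := cs_range h0 h1
  have hr := r2_gt
  have hr' := r2_lt
  have hr2' := r2_sq
  have hcs := Real.sin_sq_add_cos_sq φ
  have hsc : 1 ≤ Real.sin φ + Real.cos φ := by nlinarith
  have hc1 : 1 ≤ r2 * Real.cos φ := by nlinarith
  have key : WW φ ≤ (1 + r2) * Real.cos φ + Real.sin φ - 1 := by
    apply le_of_sq_le_sq _ (by nlinarith)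
    rw [hw]
    have e : ((1 + r2) * Real.cos φ + Real.sin φ - 1) ^ 2 -
        2 * (Real.sin φ + Real.cos φ) * Real.cos φ =
        2 * ((Real.sin φ + Real.cos φ - 1) * (r2 * Real.cos φ - 1)) := by
      linear_combination (Real.cos φ ^ 2) * hr2' + hcs
    have : 0 ≤ (Real.sin φ + Real.cos φ - 1) * (r2 * Real.cos φ - 1) :=
      mul_nonneg (by linarith) (by linarith)
    linarith
  linarith

private theorem O1_le {φ : ℝ} (h0 : 0 ≤ φ) (h1 : φ ≤ Real.pi / 4) : hs φ ≤ 53 / 50 := by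
  rw [hs_formula h0 h1]
  have hw := WW_sq h0 h1
  have hw0 : 0 ≤ WW φ := Real.sqrt_nonneg _
  obtain ⟨a, b, c, d⟩ := cs_range h0 h1
  have hr := r2_gt6
  have hr' := r2_lt6
  have hr2' := r2_sq
  have hcs := Real.sin_sq_add_cos_sq φ
  set X := (1 + r2) * Real.cos φ + Real.sin φ with hX
  have x1 : 17 / 10 ≤ X := by nlinarith
  have x2 : X ^ 2 ≤ 4 + 2 * r2 := by
    have e : 4 + 2 * r2 - X ^ 2 = (Real.cos φ - (1 + r2) * Real.sin φ) ^ 2 := by
      rw [hX]
      linear_combination (-(1 + r2) ^ 2 - 1) * hcs - hr2'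
    nlinarith [sq_nonneg (Real.cos φ - (1 + r2) * Real.sin φ)]
  have x3 : X ≤ 2614 / 1000 := by
    apply le_of_sq_le_sq _ (by norm_num)
    norm_num
    linarith
  have e : (X - 53 / 50) ^ 2 - WW φ ^ 2 = (2 - r2) * X ^ 2 - 53 / 25 * X + r2 + 1236 / 10000 := by
    rw [hw, hX]
    linear_combination ((1 + r2) * Real.cos φ ^ 2 + 2 * Real.cos φ * Real.sin φ) * hr2' +
      (r2 - 1) * hcs
  have h5 : (X - 53 / 50) ^ 2 ≤ WW φ ^ 2 := by
    have h6 : 0 ≤ (X - 17 / 10) * (2614 / 1000 - X) := mul_nonneg (by linarith) (by linarith)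
    have h7 : 0 ≤ (2 - r2) * ((X - 17 / 10) * (2614 / 1000 - X)) :=
      mul_nonneg (by linarith) h6
    nlinarith
  have h6 := le_of_sq_le_sq h5 hw0
  linarith

theorem one_le_hs (φ : ℝ) : 1 ≤ hs φ := by
  obtain ⟨n, t, h0, h1, rfl⟩ := angle_red φ
  rw [hs_int]
  exact O1_one h0 h1.le

theorem hs_le (φ : ℝ) : hs φ ≤ 53 / 50 := by
  obtain ⟨n, t, h0, h1, rfl⟩ := angle_red φ
  rw [hs_int]
  exact O1_le h0 h1.le

theorem hs_continuous : Continuous hs := by
  have h : LipschitzWith 2 hs := by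
    apply LipschitzWith.of_le_add_mul
    intro x y
    obtain ⟨p, hp, h⟩ := hs_attain x
    have h1 := le_hs hp y
    obtain ⟨b1, b2⟩ := K0_bound hp
    have h2 : |Real.cos x - Real.cos y| ≤ dist x y := by
      have := Real.lipschitzWith_cos.dist_le_mul x y
      simpa [Real.dist_eq] using this
    have h3 : |Real.sin x - Real.sin y| ≤ dist x y := by
      have := Real.lipschitzWith_sin.dist_le_mul x y
      simpa [Real.dist_eq] using this
    rw [h]
    have h4 : p.1 * (Real.cos x - Real.cos y) ≤ dist x y := by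
      calc p.1 * (Real.cos x - Real.cos y) ≤ |p.1 * (Real.cos x - Real.cos y)| := le_abs_self _
        _ = |p.1| * |Real.cos x - Real.cos y| := abs_mul _ _
        _ ≤ 1 * dist x y := mul_le_mul b1 h2 (abs_nonneg _) (by norm_num)
        _ = dist x y := one_mul _
    have h5 : p.2 * (Real.sin x - Real.sin y) ≤ dist x y := by
      calc p.2 * (Real.sin x - Real.sin y) ≤ |p.2 * (Real.sin x - Real.sin y)| := le_abs_self _
        _ = |p.2| * |Real.sin x - Real.sin y| := abs_mul _ _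
        _ ≤ 1 * dist x y := mul_le_mul b2 h3 (abs_nonneg _) (by norm_num)
        _ = dist x y := one_mul _
    have e : ((2 : NNReal) : ℝ) = 2 := rfl
    rw [e]
    linarith
  exact h.continuous

end Octa
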