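import Pool.Agent.H81.Oct.O9

/-! # O10: the congruent copies of the smoothed octagon and their area -/

set_option autoImplicit false

namespace Octa

open Complex MeasureTheory Hepta Pool.H61.Sm

private theorem O10_arg {a : ℂ} (ha : normSq a = 1) : a = ui (arg a) := by
  have h1 : ‖a‖ = 1 := by
    rw [← Real.sqrt_one, ← ha]
    rfl
  have h2 := norm_mul_cos_add_sin_mul_I a
  rw [h1, ofReal_one, one_mul, ← Complex.ofReal_cos, ← Complex.ofReal_sin] at h2
  conv_lhs => rw [← h2]
  apply Complex.ext <;> simp [ui, -Complex.ofReal_cos, -Complex.ofReal_sin]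

theorem mem_Oc0 (z : ℂ) : z ∈ Oc 0 0 ↔ toP z ∈ K0 := by
  have e : (starRingEnd ℂ) (ui 0) * (z - 0) = z := by
    have : ui 0 = 1 := by
      apply Complex.ext <;> simp [ui]
    rw [this]
    simp
  change toP ((starRingEnd ℂ) (ui 0) * (z - 0)) ∈ K0 ↔ _
  rw [e]

private theorem O10_conj {z : ℂ} (h : toP z ∈ K0) : toP ((starRingEnd ℂ) z) ∈ K0 := by
  have h1 := K0_conj h
  have e : toP ((starRingEnd ℂ) z) = ((toP z).1, -(toP z).2) := by
    unfold toP
    rw [conj_re, conj_im]
  rw [e]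
  exact h1

/-- The congruent copies of the smoothed octagon. -/
theorem image_Oc {f : ℂ → ℂ} (hf : Isometry f) : ∃ (c : ℂ) (θ : ℝ), f '' Oc 0 0 = Oc c θ := by
  have h1 : ∃ L : ℂ ≃ₗᵢ[ℝ] ℂ, ∀ z, f z = f 0 + L z := by
    let A := hf.affineIsometryOfStrictConvexSpace
    refine ⟨A.linearIsometry.toLinearIsometryEquiv rfl, fun z => ?_⟩
    have h2 := A.map_vadd 0 z
    have h3 : ∀ x, A x = f x := fun x => rfl
    rw [h3, h3] at h2
    simp only [vadd_eq_add, add_zero] at h2
    rw [h2, add_comm]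
    rfl
  obtain ⟨L, hL⟩ := h1
  obtain ⟨a, ha⟩ := linear_isometry_complex L
  have hn : normSq (a : ℂ) = 1 := by
    rw [normSq_eq_norm_sq, Circle.norm_coe, one_pow]
  have hcj : (a : ℂ) * (starRingEnd ℂ) (a : ℂ) = 1 := by
    rw [mul_conj, hn, ofReal_one]
  refine ⟨f 0, arg (a : ℂ), ?_⟩
  have hmem : ∀ w, w ∈ Oc (f 0) (arg (a : ℂ)) ↔
      toP ((starRingEnd ℂ) (a : ℂ) * (w - f 0)) ∈ K0 := by
    intro w
    change toP ((starRingEnd ℂ) (ui (arg (a : ℂ))) * (w - f 0)) ∈ K0 ↔ _
    rw [← O10_arg hn]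
  rcases ha with ha | ha
  · have hLa : ∀ z, L z = (a : ℂ) * z := by
      intro z
      rw [ha, rotation_apply]
    ext w
    rw [hmem]
    constructor
    · rintro ⟨z, hz, rfl⟩
      rw [mem_Oc0] at hz
      rw [hL, hLa, add_sub_cancel_left, ← mul_assoc, mul_comm ((starRingEnd ℂ) (a : ℂ)), hcj,
        one_mul]
      exact hz
    · intro hw
      refine ⟨(starRingEnd ℂ) (a : ℂ) * (w - f 0), (mem_Oc0 _).2 hw, ?_⟩
      rw [hL, hLa, ← mul_assoc, hcj, one_mul, add_sub_cancel]
  · have hLa : ∀ z, L z = (a : ℂ) * (starRingEnd ℂ) z := by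
      intro z
      rw [ha]
      rfl
    ext w
    rw [hmem]
    constructor
    · rintro ⟨z, hz, rfl⟩
      rw [mem_Oc0] at hz
      rw [hL, hLa, add_sub_cancel_left, ← mul_assoc, mul_comm ((starRingEnd ℂ) (a : ℂ)), hcj,
        one_mul]
      exact O10_conj hz
    · intro hw
      refine ⟨(starRingEnd ℂ) ((starRingEnd ℂ) (a : ℂ) * (w - f 0)),
        (mem_Oc0 _).2 (O10_conj hw), ?_⟩
      rw [hL, hLa, Complex.conj_conj, ← mul_assoc, hcj, one_mul, add_sub_cancel]

/-- The area of the smoothed octagon. -/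
noncomputable def aK : ℝ := 16 - 8 * r2 - 2 * Real.log 2

theorem aK_pos : 0 < aK := by
  unfold aK
  have h1 := r2_lt6
  have h2 := Real.log_two_lt_d9
  linarith

theorem volume_Oc (c : ℂ) (θ : ℝ) : volume (Oc c θ) = volume K0 := by
  have h1 : MeasurePreserving (fun z : ℂ => z - c) volume volume :=
    measurePreserving_sub_right volume c
  have hn : ‖(starRingEnd ℂ) (ui θ)‖ = 1 := by
    rw [RCLike.norm_conj, ← Real.sqrt_one]
    have : normSq (ui θ) = 1 := by
      rw [normSq_apply]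
      have := Real.sin_sq_add_cos_sq θ
      unfold ui
      simp only
      linarith
    rw [← this]
    rfl
  let a : Circle := ⟨(starRingEnd ℂ) (ui θ), mem_sphere_zero_iff_norm.2 hn⟩
  have h2 : MeasurePreserving (rotation a) volume volume := (rotation a).measurePreserving
  have h3 := Complex.volume_preserving_equiv_real_prod
  have h4 := (h3.comp h2).comp h1
  have h5 : Oc c θ = (⇑Complex.measurableEquivRealProd ∘ ⇑(rotation a) ∘ fun z : ℂ => z - c) ⁻¹'
      K0 := rfl
  rw [h5]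
  exact h4.measure_preimage K0_closed.measurableSet.nullMeasurableSet

theorem volume_Oc_le (c : ℂ) (θ : ℝ) : volume (Oc c θ) ≤ ENNReal.ofReal aK := by
  rw [volume_Oc]
  exact volume_K0

private theorem O10_card (F : Set (Set ℂ)) (hF : ∀ X ∈ F, ∃ c θ, X = Oc c θ)
    (hd : F.Pairwise fun X Y => Disjoint (interior X) (interior Y)) {r : ℝ} (hr : 0 < r)
    (s : Finset F) (hs : ∀ X ∈ s, ((X : Set ℂ) ∩ Metric.closedBall 0 r).Nonempty) :
    (s.card : ℝ) * (4 * r2 - 2) ≤ Real.pi * (r + 3 / 2 + Real.sqrt 2) ^ 2 := by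
  have h1 : ∀ X : F, ∃ p : ℂ × ℝ, (X : Set ℂ) = Oc p.1 p.2 := by
    intro X
    obtain ⟨c, θ, h⟩ := hF X X.2
    exact ⟨(c, θ), h⟩
  choose p hp using h1
  have h2 := oct_global (ι := Fin s.card) (fun i => (p (s.equivFin.symm i : F)).1)
    (fun i => (p (s.equivFin.symm i : F)).2) (by
      intro i j hij
      have h3 : (s.equivFin.symm i : F) ≠ (s.equivFin.symm j : F) := by
        intro h4
        exact hij (s.equivFin.symm.injective (Subtype.ext h4))
      have h5 : ((s.equivFin.symm i : F) : Set ℂ) ≠ ((s.equivFin.symm j : F) : Set ℂ) := by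
        intro h4
        exact h3 (Subtype.ext h4)
      have h6 := hd (s.equivFin.symm i : F).2 (s.equivFin.symm j : F).2 h5
      rw [hp, hp] at h6
      exact h6)
  rw [Fintype.card_fin] at h2
  have hR : 0 < r + 3 / 2 + Real.sqrt 2 := by positivity
  have h3 : (⋃ i, Metric.ball ((p (s.equivFin.symm i : F)).1) (Real.sqrt 2)) ⊆
      Metric.ball (0 : ℂ) (r + 3 / 2 + Real.sqrt 2) := by
    refine Set.iUnion_subset fun i => Metric.ball_subset_ball' ?_
    obtain ⟨y, hy1, hy2⟩ := hs _ (s.equivFin.symm i).2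
    rw [hp] at hy1
    have h4 := Oc_subset_ball _ _ hy1
    rw [Metric.mem_closedBall] at h4 hy2
    have h5 : dist (p (s.equivFin.symm i : F)).1 0 ≤
        dist y (p (s.equivFin.symm i : F)).1 + dist y 0 := by
      rw [dist_comm y]
      exact dist_triangle _ _ _
    linarith
  refine h2.trans ?_
  have h4 : (volume (Metric.ball (0 : ℂ) (r + 3 / 2 + Real.sqrt 2))).toReal =
      Real.pi * (r + 3 / 2 + Real.sqrt 2) ^ 2 := by
    rw [Complex.volume_ball, ENNReal.toReal_mul, ENNReal.toReal_pow, ENNReal.toReal_ofReal hR.le]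
    simp only [ENNReal.coe_toReal, NNReal.coe_real_pi]
    ring
  rw [← h4]
  refine ENNReal.toReal_mono ?_ (measure_mono h3)
  exact (measure_ball_lt_top).ne

theorem density_sum (F : Set (Set ℂ)) (hF : ∀ X ∈ F, ∃ c θ, X = Oc c θ)
    (hd : F.Pairwise fun X Y => Disjoint (interior X) (interior Y)) {r : ℝ} (hr : 0 < r) :
    ∑' X : F, volume ((X : Set ℂ) ∩ Metric.closedBall 0 r) ≤
      ENNReal.ofReal
        (Real.pi * (r + 3 / 2 + Real.sqrt 2) ^ 2 / (4 * r2 - 2) * aK) := by
  classical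
  have ha := aK_pos.le
  rw [ENNReal.tsum_eq_iSup_sum]
  refine iSup_le fun s => ?_
  have h1 : ∑ X ∈ s, volume ((X : Set ℂ) ∩ Metric.closedBall 0 r) =
      ∑ X ∈ s.filter (fun X : F => ((X : Set ℂ) ∩ Metric.closedBall 0 r).Nonempty),
        volume ((X : Set ℂ) ∩ Metric.closedBall 0 r) := by
    symm
    refine Finset.sum_subset (Finset.filter_subset _ _) fun X hX hX' => ?_
    have h2 : ¬ ((X : Set ℂ) ∩ Metric.closedBall 0 r).Nonempty := fun h =>
      hX' (Finset.mem_filter.2 ⟨hX, h⟩)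
    rw [Set.not_nonempty_iff_eq_empty.1 h2, measure_empty]
  rw [h1]
  have h2 : ∀ X ∈ s.filter (fun X : F => ((X : Set ℂ) ∩ Metric.closedBall 0 r).Nonempty),
      volume ((X : Set ℂ) ∩ Metric.closedBall 0 r) ≤ ENNReal.ofReal aK := by
    intro X _
    obtain ⟨c, θ, h⟩ := hF X X.2
    refine le_trans ?_ (volume_Oc_le c θ)
    rw [← h]
    exact measure_mono Set.inter_subset_left
  refine (Finset.sum_le_sum h2).trans ?_
  rw [Finset.sum_const, nsmul_eq_mul, ← ENNReal.ofReal_natCast,
    ← ENNReal.ofReal_mul (Nat.cast_nonneg _)]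
  refine ENNReal.ofReal_le_ofReal (mul_le_mul_of_nonneg_right ?_ ha)
  have hM : 0 < 4 * r2 - 2 := by linarith [r2_gt6]
  rw [le_div_iff₀ hM]
  exact O10_card F hF hd hr _ fun X hX => (Finset.mem_filter.1 hX).2

/-! ### The Euclidean plane -/

/-- The smoothed octagon in the Euclidean plane. -/
def octP : Set (EuclideanSpace ℝ (Fin 2)) := {z | (z 0, z 1) ∈ K0}

/-- The identification of the complex plane with the Euclidean plane. -/
private noncomputable def O10_e : ℂ ≃ₗᵢ[ℝ] EuclideanSpace ℝ (Fin 2) :=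
  Complex.orthonormalBasisOneI.repr

private theorem O10_e0 (z : ℂ) : O10_e z 0 = z.re := by
  simp [O10_e, Complex.orthonormalBasisOneI_repr_apply]

private theorem O10_e1 (z : ℂ) : O10_e z 1 = z.im := by
  simp [O10_e, Complex.orthonormalBasisOneI_repr_apply]

private theorem O10_mem (z : ℂ) : O10_e z ∈ octP ↔ z ∈ Oc 0 0 := by
  rw [mem_Oc0]
  change (O10_e z 0, O10_e z 1) ∈ K0 ↔ _
  rw [O10_e0, O10_e1]
  rfl

private theorem O10_image : octP = O10_e '' Oc 0 0 := by
  ext w
  constructor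
  · intro hw
    refine ⟨O10_e.symm w, ?_, O10_e.apply_symm_apply w⟩
    rw [← O10_mem, O10_e.apply_symm_apply]
    exact hw
  · rintro ⟨z, hz, rfl⟩
    exact (O10_mem z).2 hz

private theorem O10_compact : IsCompact (Oc 0 0) :=
  Metric.isCompact_of_isClosed_isBounded (isClosed_Oc 0 0)
    (Metric.isBounded_closedBall.subset (Oc_subset_ball 0 0))

theorem octP_compact : IsCompact octP := by
  rw [O10_image]
  exact O10_compact.image O10_e.continuous

theorem octP_convex : Convex ℝ octP := by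
  intro x hx y hy a b ha hb hab
  have h := K0_convex hx hy ha hb hab
  change ((a • x + b • y) 0, (a • x + b • y) 1) ∈ K0
  have e : ((a • x + b • y) 0, (a • x + b • y) 1) =
      a • ((x 0, x 1) : ℝ × ℝ) + b • ((y 0, y 1) : ℝ × ℝ) := by
    ext <;> simp
  rw [e]
  exact h

theorem octP_neg {x : EuclideanSpace ℝ (Fin 2)} (hx : x ∈ octP) : -x ∈ octP := by
  have h := K0_neg hx
  change ((-x) 0, (-x) 1) ∈ K0
  have e : ((-x) 0, (-x) 1) = -((x 0, x 1) : ℝ × ℝ) := by
    ext <;> simp
  rw [e]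
  exact h

theorem octP_interior : (interior octP).Nonempty := by
  have h2 : (interior (Oc 0 0)).Nonempty :=
    ⟨0, ball_subset_Oc 0 0 (Metric.mem_ball_self one_pos)⟩
  have h3 : interior octP = O10_e '' interior (Oc 0 0) := by
    rw [O10_image]
    exact (O10_e.toHomeomorph.image_interior (Oc 0 0)).symm
  rw [h3]
  exact h2.image _

private theorem O10_vol (X : Set (EuclideanSpace ℝ (Fin 2))) :
    volume (O10_e.symm '' X) = volume X := by
  have h2 : O10_e.symm '' X = O10_e ⁻¹' X := by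
    ext z
    constructor
    · rintro ⟨w, hw, rfl⟩
      rw [Set.mem_preimage, O10_e.apply_symm_apply]
      exact hw
    · intro hz
      exact ⟨O10_e z, hz, O10_e.symm_apply_apply z⟩
  rw [h2]
  exact O10_e.measurePreserving.measure_preimage_equiv (f := O10_e.toMeasurableEquiv) X

/-- The main estimate in the Euclidean plane. -/
theorem plane_sum_le (F : Set (Set (EuclideanSpace ℝ (Fin 2))))
    (hF : ∀ X ∈ F, ∃ f : EuclideanSpace ℝ (Fin 2) → EuclideanSpace ℝ (Fin 2),
      Isometry f ∧ X = f '' octP)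
    (hd : F.Pairwise fun X Y => Disjoint (interior X) (interior Y)) {r : ℝ} (hr : 0 < r) :
    ∑' X : F, volume ((X : Set (EuclideanSpace ℝ (Fin 2))) ∩ Metric.closedBall 0 r) ≤
      ENNReal.ofReal
        (Real.pi * (r + 3 / 2 + Real.sqrt 2) ^ 2 / (4 * r2 - 2) * aK) := by
  classical
  let T : Set (EuclideanSpace ℝ (Fin 2)) → Set ℂ := fun X => O10_e.symm '' X
  have hTinj : Function.Injective T := by
    intro X Y h
    exact O10_e.symm.injective.image_injective h
  have hTint : ∀ X, interior (T X) = O10_e.symm '' interior X := fun X =>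
    (O10_e.symm.toHomeomorph.image_interior X).symm
  have h1 := density_sum (T '' F) (by
    rintro _ ⟨X, hX, rfl⟩
    obtain ⟨f, hf, rfl⟩ := hF X hX
    obtain ⟨c, θ, h⟩ := image_Oc (f := fun z => O10_e.symm (f (O10_e z)))
      (O10_e.symm.isometry.comp (hf.comp O10_e.isometry))
    refine ⟨c, θ, ?_⟩
    rw [← h]
    simp only [T]
    rw [O10_image, Set.image_image, Set.image_image]) (by
    rintro _ ⟨X, hX, rfl⟩ _ ⟨Y, hY, rfl⟩ hne
    have hXY : X ≠ Y := fun h => hne (by rw [h])
    have h2 := hd hX hY hXY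
    show Disjoint (interior (T X)) (interior (T Y))
    rw [hTint, hTint]
    exact (Set.disjoint_image_iff O10_e.symm.injective).2 h2) hr
  refine le_trans (le_of_eq ?_) h1
  let E : F ≃ (T '' F) := Equiv.Set.image T F hTinj
  rw [← E.tsum_eq]
  refine tsum_congr fun X => ?_
  have h2 : ((E X : T '' F) : Set ℂ) = O10_e.symm '' (X : Set (EuclideanSpace ℝ (Fin 2))) := rfl
  rw [h2]
  have h3 : O10_e.symm '' (X : Set (EuclideanSpace ℝ (Fin 2))) ∩ Metric.closedBall (0 : ℂ) r =
      O10_e.symm '' ((X : Set (EuclideanSpace ℝ (Fin 2))) ∩ Metric.closedBall 0 r) := by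
    rw [Set.image_inter O10_e.symm.injective]
    congr 1
    rw [LinearIsometryEquiv.image_closedBall, map_zero]
  rw [h3, O10_vol]

end Octa
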