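import Mathlib

/-! # O2: the corner area `qq` and its Monge property

`qq a b β` is the area of the quadrilateral spanned by a point `O`, the feet of the perpendiculars
to two lines at the distances `a`, `b` from `O` whose normals form the angle `β`, and the
intersection of the lines. -/

set_option autoImplicit false

namespace Octa

open Real

/-- the area of a corner -/
noncomputable def qq (a b β : ℝ) : ℝ := (2 * a * b - (a ^ 2 + b ^ 2) * cos β) / (2 * sin β)

theorem qq_comm (a b β : ℝ) : qq a b β = qq b a β := by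
  unfold qq
  congr 1
  ring

/-- The change of the corner area under a translation. -/
theorem qq_trans {x y : ℝ} (h : sin (y - x) ≠ 0) (a b v w : ℝ) :
    qq (a + (v * cos x + w * sin x)) (b + (v * cos y + w * sin y)) (y - x) = qq a b (y - x) +
      (a + (v * cos x + w * sin x) / 2) * (-(v * sin x) + w * cos x) -
      (b + (v * cos y + w * sin y) / 2) * (-(v * sin y) + w * cos y) := by
  unfold qq
  have hx := sin_sq_add_cos_sq x
  have hy := sin_sq_add_cos_sq y
  have e : 2 * (a + (v * cos x + w * sin x)) * (b + (v * cos y + w * sin y)) -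
      ((a + (v * cos x + w * sin x)) ^ 2 + (b + (v * cos y + w * sin y)) ^ 2) * cos (y - x) =
      2 * a * b - (a ^ 2 + b ^ 2) * cos (y - x) + 2 * sin (y - x) *
      ((a + (v * cos x + w * sin x) / 2) * (-(v * sin x) + w * cos x) -
      (b + (v * cos y + w * sin y) / 2) * (-(v * sin y) + w * cos y)) := by
    rw [cos_sub, sin_sub]
    linear_combination ((-2) * a * cos y * v + (-2) * a * sin y * w +
      (-1) * cos x * cos y * v^2 + (-1) * cos x * sin y * v * w + (-1) * cos y * sin x * v * w +
      (-1) * sin x * sin y * w^2) * hx +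
      ((-2) * b * cos x * v + (-2) * b * sin x * w + (-1) * cos x * cos y * v^2 +
      (-1) * cos x * sin y * v * w + (-1) * cos y * sin x * v * w + (-1) * sin x * sin y * w^2) * hy
  rw [e, add_div, mul_div_cancel_left₀ _ (mul_ne_zero two_ne_zero h)]
  ring

private theorem O2_cot {x y : ℝ} (h0 : 0 < x) (h1 : x ≤ y) (h2 : y < π) :
    cos y / sin y ≤ cos x / sin x := by
  have s1 : 0 < sin x := sin_pos_of_pos_of_lt_pi h0 (by linarith)
  have s2 : 0 < sin y := sin_pos_of_pos_of_lt_pi (by linarith) h2
  have s3 : 0 ≤ sin (y - x) := sin_nonneg_of_nonneg_of_le_pi (by linarith) (by linarith)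
  rw [div_le_div_iff₀ s2 s1]
  rw [sin_sub] at s3
  linarith

/-- the Monge property -/
theorem monge {a b c d ha hb hc hd : ℝ} (h1 : a ≤ b) (h2 : b < c) (h3 : c ≤ d) (h4 : d - a < π)
    (hB : hb * sin (c - a) ≤ ha * sin (c - b) + hc * sin (b - a))
    (hC : hc * sin (d - b) ≤ hb * sin (d - c) + hd * sin (c - b)) :
    qq ha hc (c - a) + qq hb hd (d - b) ≤ qq ha hd (d - a) + qq hb hc (c - b) := by
  have sbc : 0 < sin (c - b) := sin_pos_of_pos_of_lt_pi (by linarith) (by linarith)
  have sac : 0 < sin (c - a) := sin_pos_of_pos_of_lt_pi (by linarith) (by linarith)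
  have sbd : 0 < sin (d - b) := sin_pos_of_pos_of_lt_pi (by linarith) (by linarith)
  have sad : 0 < sin (d - a) := sin_pos_of_pos_of_lt_pi (by linarith) (by linarith)
  set v : ℝ := (hb * sin c - hc * sin b) / sin (c - b) with hv
  set w : ℝ := (hc * cos b - hb * cos c) / sin (c - b) with hw
  have eb : v * cos b + w * sin b = hb := by
    rw [hv, hw]
    field_simp
    rw [sin_sub]
    ring
  have ec : v * cos c + w * sin c = hc := by
    rw [hv, hw]
    field_simp
    rw [sin_sub]
    ring
  set A : ℝ := ha - (v * cos a + w * sin a) with hA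
  set D : ℝ := hd - (v * cos d + w * sin d) with hD
  have hA0 : 0 ≤ A := by
    have e : A * sin (c - b) = ha * sin (c - b) + hc * sin (b - a) - hb * sin (c - a) := by
      rw [hA, hv, hw]
      field_simp
      rw [sin_sub c a, sin_sub b a]
      ring
    by_contra hneg
    have := mul_neg_of_neg_of_pos (not_le.1 hneg) sbc
    linarith
  have hD0 : 0 ≤ D := by
    have e : D * sin (c - b) = hb * sin (d - c) + hd * sin (c - b) - hc * sin (d - b) := by
      rw [hD, hv, hw]
      field_simp
      rw [sin_sub d c, sin_sub d b]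
      ring
    by_contra hneg
    have := mul_neg_of_neg_of_pos (not_le.1 hneg) sbc
    linarith
  have ea : ha = A + (v * cos a + w * sin a) := by rw [hA]; ring
  have ed : hd = D + (v * cos d + w * sin d) := by rw [hD]; ring
  have t1 := qq_trans sac.ne' A 0 v w
  have t2 := qq_trans sbd.ne' 0 D v w
  have t3 := qq_trans sad.ne' A D v w
  have t4 := qq_trans sbc.ne' 0 0 v w
  rw [← ea, zero_add, ec] at t1
  rw [← ed, zero_add, eb] at t2
  rw [← ea, ← ed] at t3
  rw [zero_add, zero_add, eb, ec] at t4
  rw [t1, t2, t3, t4]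
  have q1 : qq A 0 (c - a) = -(A ^ 2 / 2 * (cos (c - a) / sin (c - a))) := by
    unfold qq
    field_simp
    ring
  have q2 : qq 0 D (d - b) = -(D ^ 2 / 2 * (cos (d - b) / sin (d - b))) := by
    unfold qq
    field_simp
    ring
  have q3 : qq A D (d - a) = A * D / sin (d - a) -
      (A ^ 2 / 2 + D ^ 2 / 2) * (cos (d - a) / sin (d - a)) := by
    unfold qq
    field_simp
  have q4 : qq 0 0 (c - b) = 0 := by
    unfold qq
    simp
  rw [q1, q2, q3, q4]
  have c1 := mul_le_mul_of_nonneg_left
    (O2_cot (x := c - a) (y := d - a) (by linarith) (by linarith) h4)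
    (by positivity : 0 ≤ A ^ 2 / 2)
  have c2 := mul_le_mul_of_nonneg_left
    (O2_cot (x := d - b) (y := d - a) (by linarith) (by linarith) h4)
    (by positivity : 0 ≤ D ^ 2 / 2)
  have c3 : 0 ≤ A * D / sin (d - a) := by positivity
  linarith

/-- Moving the lines outwards does not decrease the area. -/
theorem qq_mono {h₁ h₂ s t β : ℝ} (hs : 0 ≤ s) (ht : 0 ≤ t) (hβ : 0 < sin β)
    (c1 : s * cos β ≤ 2 * (h₂ - h₁ * cos β)) (c2 : t * cos β ≤ 2 * (h₁ - h₂ * cos β)) :
    qq h₁ h₂ β ≤ qq (h₁ + s) (h₂ + t) β := by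
  unfold qq
  apply div_le_div_of_nonneg_right _ (by positivity)
  nlinarith [mul_nonneg hs (sub_nonneg.2 c1), mul_nonneg ht (sub_nonneg.2 c2), mul_nonneg hs ht]

end Octa
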