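import Pool.Agent.H81.Oct.O1
import Pool.Agent.H81.Oct.O2

/-! # O3: the corner potential of the smoothed octagon -/

set_option autoImplicit false

namespace Octa

open Pool.H61.Sm Real

/-- the mean slope of the potential -/
noncomputable def kp : ℝ := 4 * (2 - r2) / π

/-- the potential on `[0, π / 4]` -/
noncomputable def G0 (t : ℝ) : ℝ := qq 1 (hs t) (t + π / 4) - (r2 - 1)

/-- the periodic part of the potential -/
noncomputable def PP (φ : ℝ) : ℝ :=
  G0 (φ - ⌊φ / (π / 4)⌋ * (π / 4)) - kp * (φ - ⌊φ / (π / 4)⌋ * (π / 4))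

/-- the potential -/
noncomputable def GG (φ : ℝ) : ℝ := PP φ + kp * φ

/-- the excess of a corner -/
noncomputable def EE (x y : ℝ) : ℝ := qq (hs x) (hs y) (y - x) - (GG y - GG x)

theorem kp_mul : kp * (π / 4) = 2 - r2 := by
  unfold kp
  have := pi_pos
  field_simp

theorem PP_add (φ : ℝ) : PP (φ + π / 4) = PP φ := by
  unfold PP
  have hp : (π / 4) ≠ 0 := by positivity
  have e : (φ + π / 4) / (π / 4) = φ / (π / 4) + 1 := by
    rw [add_div, div_self hp]
  have e2 : φ + π / 4 - (⌊φ / (π / 4)⌋ + 1 : ℤ) * (π / 4) =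
      φ - ⌊φ / (π / 4)⌋ * (π / 4) := by
    push_cast
    ring
  rw [e, Int.floor_add_one, e2]

theorem PP_int (φ : ℝ) (n : ℤ) : PP (φ + n * (π / 4)) = PP φ := by
  have h : Function.Periodic PP (π / 4) := PP_add
  exact h.int_mul n φ

theorem GG_int (φ : ℝ) (n : ℤ) : GG (φ + n * (π / 4)) = GG φ + n * (2 - r2) := by
  unfold GG
  rw [PP_int, ← kp_mul]
  ring

theorem PP_eq {t : ℝ} (h0 : 0 ≤ t) (h1 : t < π / 4) : PP t = G0 t - kp * t := by
  unfold PP
  have hp : 0 < π / 4 := by positivity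
  have e : ⌊t / (π / 4)⌋ = 0 := by
    rw [Int.floor_eq_zero_iff]
    exact ⟨div_nonneg h0 hp.le, (div_lt_one hp).2 h1⟩
  rw [e]
  simp

private theorem O3_r2 : r2 / 2 = √2 / 2 := rfl

theorem hs_quarter : hs (π / 4) = 1 := by
  have h := hs_add 0
  rwa [zero_add, hs_zero] at h

theorem G0_zero : G0 0 = 0 := by
  unfold G0 qq
  rw [hs_zero, zero_add, cos_pi_div_four, sin_pi_div_four, ← O3_r2]
  have h := r2_sq
  have h0 := r2_pos
  field_simp
  linear_combination (-2 : ℝ) * h

theorem G0_quarter : G0 (π / 4) = 2 - r2 := by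
  unfold G0 qq
  rw [hs_quarter, show π / 4 + π / 4 = π / 2 by ring, cos_pi_div_two, sin_pi_div_two]
  ring

theorem GG_eq {t : ℝ} (h0 : 0 ≤ t) (h1 : t ≤ π / 4) : GG t = G0 t := by
  rcases lt_or_eq_of_le h1 with h | h
  · unfold GG
    rw [PP_eq h0 h]
    ring
  · rw [h, G0_quarter]
    have e := GG_int 0 1
    have e0 : GG 0 = 0 := by
      unfold GG
      rw [PP_eq le_rfl (by positivity), G0_zero]
      ring
    rw [e0] at e
    simpa using e

/-- the quadratic equation for the support function -/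
theorem hs_quad {t : ℝ} (h0 : 0 ≤ t) (h1 : t ≤ π / 4) :
    1 + hs t ^ 2 = 2 * hs t * ((1 + r2) * cos t + sin t) - 2 * r2 * cos t * (cos t + sin t) := by
  have hw := WW_sq h0 h1
  have hf := hs_formula h0 h1
  have hr := r2_sq
  have hcs := sin_sq_add_cos_sq t
  have e : WW t = (1 + r2) * cos t + sin t - hs t := by rw [hf]; ring
  rw [e] at hw
  linear_combination hw - hcs - (cos t ^ 2) * hr

theorem cos_q (t : ℝ) : cos (t + π / 4) = r2 / 2 * (cos t - sin t) := by
  rw [cos_add, cos_pi_div_four, sin_pi_div_four]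
  unfold r2
  ring

theorem sin_q (t : ℝ) : sin (t + π / 4) = r2 / 2 * (cos t + sin t) := by
  rw [sin_add, cos_pi_div_four, sin_pi_div_four]
  unfold r2
  ring

theorem G0_formula {t : ℝ} (h0 : 0 ≤ t) (h1 : t ≤ π / 4) :
    G0 t = hs t * ((1 + r2) * sin t - cos t) + r2 * cos t * (cos t - sin t) - (r2 - 1) := by
  obtain ⟨a, b, c, d⟩ := cs_range h0 h1
  have hr := r2_sq
  have hr0 := r2_pos
  have hq := hs_quad h0 h1
  have hcs := sin_sq_add_cos_sq t
  have hp : 0 < cos t + sin t := by linarith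
  unfold G0 qq
  rw [cos_q, sin_q]
  congr 1
  rw [div_eq_iff (by positivity)]
  generalize hs t = h at *
  generalize cos t = C at *
  generalize sin t = S at *
  linear_combination (-(r2 / 2) * (C - S)) * hq +
    (-(2 : ℝ) * h) * hcs + (h * C * (S - C) - h * (C * S + S ^ 2)) * hr

/-- The area of the critical hexagons is constant. -/
theorem hs_area {t : ℝ} (h0 : 0 ≤ t) (h1 : t ≤ π / 4) :
    qq 1 (hs t) (t + π / 4) + qq (hs t) 1 (π / 2 - t) = r2 := by
  obtain ⟨a, b, c, d⟩ := cs_range h0 h1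
  have hr := r2_sq
  have hr0 := r2_pos
  have hq := hs_quad h0 h1
  have hcs := sin_sq_add_cos_sq t
  have hp : 0 < cos t + sin t := by linarith
  have hc : 0 < cos t := by linarith
  unfold qq
  rw [cos_q, sin_q, cos_pi_div_two_sub, sin_pi_div_two_sub]
  rw [div_add_div _ _ (by positivity) (by positivity), div_eq_iff (by positivity)]
  generalize hs t = h at *
  generalize cos t = C at *
  generalize sin t = S at *
  linear_combination (-r2) * hq + (-r2 * (1 + h ^ 2)) * hcs - 2 * h * C * hr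

theorem crit1 {t : ℝ} (h0 : 0 ≤ t) (h1 : t ≤ π / 4) : EE (-(π / 4)) t = 2 * r2 - 3 := by
  have e1 : hs (-(π / 4)) = 1 := by
    have h := hs_add (-(π / 4))
    rw [neg_add_cancel, hs_zero] at h
    exact h.symm
  have e2 : GG (-(π / 4)) = -(2 - r2) := by
    have h := GG_int 0 (-1)
    rw [GG_eq le_rfl (by positivity), G0_zero] at h
    simpa using h
  unfold EE
  rw [e1, e2, GG_eq h0 h1]
  unfold G0
  rw [sub_neg_eq_add]
  ring

theorem crit2 {t : ℝ} (h0 : 0 ≤ t) (h1 : t ≤ π / 4) : EE t (π / 2) = 2 * r2 - 3 := by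
  have e1 : hs (π / 2) = 1 := by
    have h := hs_add (π / 4)
    rw [hs_quarter] at h
    rw [← h]
    congr 1
    ring
  have e2 : GG (π / 2) = 2 * (2 - r2) := by
    have h := GG_int 0 2
    rw [GG_eq le_rfl (by positivity), G0_zero] at h
    rw [show π / 2 = 0 + ((2 : ℤ) : ℝ) * (π / 4) by push_cast; ring, h]
    push_cast
    ring
  have e3 := hs_area h0 h1
  unfold EE
  rw [e1, e2, GG_eq h0 h1]
  unfold G0
  linear_combination e3

theorem EE_int (x y : ℝ) (n : ℤ) : EE (x + n * (π / 4)) (y + n * (π / 4)) = EE x y := by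
  unfold EE
  rw [hs_int, hs_int, GG_int, GG_int,
    show y + (n : ℝ) * (π / 4) - (x + (n : ℝ) * (π / 4)) = y - x by ring]
  ring

theorem EE_monge {a b c d : ℝ} (h1 : a ≤ b) (h2 : b < c) (h3 : c ≤ d) (h4 : d - a < π) :
    EE a c + EE b d ≤ EE a d + EE b c := by
  have h := monge h1 h2 h3 h4 (ha := hs a) (hb := hs b) (hc := hs c) (hd := hs d)
    (hs_conv h1 h2.le (by linarith)) (hs_conv h2.le h3 (by linarith))
  unfold EE
  linarith

private theorem O3_crit3 {y : ℝ} (h0 : π / 4 ≤ y) (h1 : y ≤ π / 2) : EE 0 y = 2 * r2 - 3 := by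
  have h := EE_int (-(π / 4)) (y - π / 4) 1
  rw [crit1 (by linarith) (by linarith)] at h
  rw [← h]
  congr 1
  · push_cast
    ring
  · push_cast
    ring

/-- shifts of the second critical identity -/
private theorem O3_crit4 (n : ℤ) {y : ℝ} (h0 : (n + 1) * (π / 4) ≤ y)
    (h1 : y ≤ (n + 2) * (π / 4)) : EE (n * (π / 4)) y = 2 * r2 - 3 := by
  have h := EE_int 0 (y - n * (π / 4)) n
  rw [O3_crit3 (by linarith) (by linarith)] at h
  rw [← h]
  congr 1
  · ring
  · ring

private theorem O3_case1 {x y : ℝ} (h0 : 0 ≤ x) (h1 : x < y) (h2 : y ≤ π / 4) :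
    2 * r2 - 3 ≤ EE x y := by
  have hpi := pi_pos
  have c1 : EE 0 (π / 4) = 2 * r2 - 3 := O3_crit3 le_rfl (by linarith)
  have c2 : EE 0 (π / 2) = 2 * r2 - 3 := O3_crit3 (by linarith) le_rfl
  have c3 : EE (-(π / 4)) (π / 4) = 2 * r2 - 3 := by
    have h := crit1 (t := π / 4) (by linarith) le_rfl
    exact h
  have s1 : 2 * r2 - 3 ≤ EE 0 y := by
    have h := EE_monge (a := -(π / 4)) (b := 0) (c := y) (d := π / 4) (by linarith) (by linarith)
      h2 (by linarith)
    rw [crit1 (by linarith) h2, c1, c3] at h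
    linarith
  have s2 : 2 * r2 - 3 ≤ EE x (π / 4) := by
    have h := EE_monge (a := 0) (b := x) (c := π / 4) (d := π / 2) h0 (by linarith)
      (by linarith) (by linarith)
    rw [crit2 h0 (by linarith), c1, c2] at h
    linarith
  have h := EE_monge (a := 0) (b := x) (c := y) (d := π / 4) h0 h1 h2 (by linarith)
  rw [c1] at h
  linarith

private theorem O3_case2 {x y : ℝ} (h0 : 0 ≤ x) (h1 : x ≤ π / 4) (hxy : x < y)
    (h2 : π / 4 ≤ y) (h3 : y ≤ π / 2) : 2 * r2 - 3 ≤ EE x y := by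
  have hpi := pi_pos
  have c2 : EE 0 (π / 2) = 2 * r2 - 3 := O3_crit3 (by linarith) le_rfl
  have h := EE_monge (a := 0) (b := x) (c := y) (d := π / 2) h0 hxy h3 (by linarith)
  rw [O3_crit3 h2 h3, crit2 h0 h1, c2] at h
  linarith

private theorem O3_case3 {x y : ℝ} (h0 : 0 ≤ x) (h1 : x ≤ π / 4)
    (h2 : π / 2 ≤ y) (h3 : y ≤ 3 * (π / 4)) : 2 * r2 - 3 ≤ EE x y := by
  have hpi := pi_pos
  have h := EE_monge (a := x) (b := π / 4) (c := π / 2) (d := y) h1 (by linarith) h2 (by linarith)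
  have c1 := O3_crit4 1 (y := y) (by push_cast; linarith) (by push_cast; linarith)
  have c2 := O3_crit4 1 (y := π / 2) (by push_cast; linarith) (by push_cast; linarith)
  push_cast at c1 c2
  rw [one_mul] at c1 c2
  rw [crit2 h0 h1, c1, c2] at h
  linarith

private theorem O3_case4 {x y : ℝ} (h0 : 0 ≤ x) (h1 : x ≤ π / 4) (hxy : y < x + π)
    (h2 : 3 * (π / 4) ≤ y) (h3 : y ≤ π) : 2 * r2 - 3 ≤ EE x y := by
  have hpi := pi_pos
  have h := EE_monge (a := x) (b := 2 * (π / 4)) (c := 3 * (π / 4)) (d := y) (by linarith)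
    (by linarith) h2 (by linarith)
  have c1 := O3_crit4 2 (y := y) (by push_cast; linarith) (by push_cast; linarith)
  have c2 := O3_crit4 2 (y := 3 * (π / 4)) (by push_cast; linarith) (by push_cast; linarith)
  push_cast at c1 c2
  have c3 := O3_case3 h0 h1 (y := 3 * (π / 4)) (by linarith) le_rfl
  rw [c1, c2] at h
  linarith

private theorem O3_case5 {x y : ℝ} (h0 : 0 < x) (h1 : x ≤ π / 4) (hxy : y < x + π)
    (h2 : π ≤ y) : 2 * r2 - 3 ≤ EE x y := by
  have hpi := pi_pos
  have h := EE_monge (a := x) (b := 3 * (π / 4)) (c := π) (d := y) (by linarith)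
    (by linarith) h2 (by linarith)
  have c1 := O3_crit4 3 (y := y) (by push_cast; linarith) (by push_cast; linarith)
  have c2 := O3_crit4 3 (y := π) (by push_cast; linarith) (by push_cast; linarith)
  push_cast at c1 c2
  have c3 := O3_case4 h0.le h1 (y := π) (by linarith) (by linarith) le_rfl
  rw [c1, c2] at h
  linarith

/-- The corner inequality. -/
theorem EE_ge {x y : ℝ} (h1 : x < y) (h2 : y < x + π) : 2 * r2 - 3 ≤ EE x y := by
  have hpi := pi_pos
  obtain ⟨n, t, h0, h3, hx⟩ := angle_red x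
  have e : EE x y = EE t (y - n * (π / 4)) := by
    rw [← EE_int t (y - n * (π / 4)) n, hx]
    congr 1
    ring
  rw [e]
  set z := y - n * (π / 4) with hz
  have h4 : t < z := by linarith
  have h5 : z < t + π := by linarith
  rcases le_total z (π / 4) with a1 | a1
  · exact O3_case1 h0 h4 a1
  rcases le_total z (π / 2) with a2 | a2
  · exact O3_case2 h0 h3.le h4 a1 a2
  rcases le_total z (3 * (π / 4)) with a3 | a3
  · exact O3_case3 h0 h3.le a2 a3
  rcases le_total z π with a4 | a4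
  · exact O3_case4 h0 h3.le h5 a3 a4
  · exact O3_case5 (by linarith) h3.le h5 a4

end Octa
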