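import Pool.Agent.H81.Oct.O3

/-! # O4: a bound for the periodic part of the potential -/

set_option autoImplicit false

namespace Octa

open Pool.H61.Sm Real

/-- the factor of `sin ψ` in the potential, as a function of `cos ψ` -/
private noncomputable def Q4 (c : ℝ) : ℝ := 2 * (1 + r2) * c - √((8 + 8 * r2) * c ^ 2 - 2 * r2)

private theorem O4_Q {c : ℝ} (h1 : 9238 / 10000 ≤ c) (h2 : c ≤ 1) :
    76 / 100 ≤ Q4 c ∧ Q4 c ≤ 769 / 1000 := by
  have hr := r2_gt6
  have hr' := r2_lt6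
  have hr2 := r2_sq
  unfold Q4
  have e : ∀ q : ℝ, (2 * (1 + r2) * c - q) ^ 2 - ((8 + 8 * r2) * c ^ 2 - 2 * r2) =
      4 * c ^ 2 - 4 * (1 + r2) * q * c + q ^ 2 + 2 * r2 := by
    intro q
    linear_combination (4 * c ^ 2) * hr2
  constructor
  · have h3 : √((8 + 8 * r2) * c ^ 2 - 2 * r2) ≤ 2 * (1 + r2) * c - 76 / 100 := by
      apply Real.sqrt_le_iff.2
      constructor
      · nlinarith
      · have := e (76 / 100)
        nlinarith [sq_nonneg (c - 917 / 1000)]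
    linarith
  · have h3 : 2 * (1 + r2) * c - 769 / 1000 ≤ √((8 + 8 * r2) * c ^ 2 - 2 * r2) := by
      apply Real.le_sqrt_of_sq_le
      have := e (769 / 1000)
      nlinarith [mul_nonneg (sub_nonneg.2 h1) (sub_nonneg.2 h2)]
    linarith

private theorem O4_kp : 7458 / 10000 ≤ kp ∧ kp ≤ 7459 / 10000 := by
  have hr := r2_gt6
  have hr' := r2_lt6
  have h1 := pi_gt_d6
  have h2 := pi_lt_d6
  unfold kp
  constructor
  · rw [le_div_iff₀ pi_pos]
    nlinarith
  · rw [div_le_iff₀ pi_pos]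
    nlinarith

private theorem O4_f {x : ℝ} (h0 : 0 ≤ x) (h1 : x ≤ π / 8) :
    |sin x * Q4 (cos x) - kp * x| ≤ 92 / 10000 := by
  have hp := pi_lt_d6
  have hx : x ≤ 3927 / 10000 := by linarith
  obtain ⟨k1, k2⟩ := O4_kp
  have hc : 9238 / 10000 ≤ cos x := by
    have h2 := cos_le_cos_of_nonneg_of_le_pi h0 (by linarith : π / 8 ≤ π) h1
    have h3 : 9238 / 10000 ≤ cos (π / 8) := by
      rw [cos_pi_div_eight]
      have hr := r2_gt6
      unfold r2 at hr
      rw [le_div_iff₀ (by norm_num)]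
      apply Real.le_sqrt_of_sq_le
      norm_num
      linarith
    linarith
  obtain ⟨q1, q2⟩ := O4_Q hc (cos_le_one x)
  have s1 : sin x ≤ x := sin_le h0
  have s0 : 0 ≤ sin x := sin_nonneg_of_nonneg_of_le_pi h0 (by linarith [pi_pos])
  have s2 : x - x ^ 3 / 4 ≤ sin x := by
    rcases eq_or_lt_of_le h0 with h | h
    · rw [← h]
      simp
    · have h3 := sin_gt_sub_cube h
      have h4 : 0 < x ^ 3 := by positivity
      linarith
  rw [abs_le]
  constructor
  · have h3 : sin x * (76 / 100) ≤ sin x * Q4 (cos x) := mul_le_mul_of_nonneg_left q1 s0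
    have h4 : kp * x ≤ 7459 / 10000 * x := mul_le_mul_of_nonneg_right k2 h0
    have h5 : x ^ 3 ≤ 3927 / 10000 * (3927 / 10000) * x := by
      have : x ^ 2 ≤ 3927 / 10000 * (3927 / 10000) := by nlinarith
      nlinarith
    have h6 : x - x ^ 3 / 4 ≤ sin x := s2
    nlinarith
  · have h3 : sin x * Q4 (cos x) ≤ x * (769 / 1000) := by
      apply mul_le_mul s1 q2 (by linarith) h0
    have h4 : 7458 / 10000 * x ≤ kp * x := mul_le_mul_of_nonneg_right k1 h0
    nlinarith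

private theorem O4_s8 : sin (π / 8) ^ 2 = (2 - r2) / 4 ∧ cos (π / 8) = (1 + r2) * sin (π / 8) := by
  have hr := r2_sq
  have hr1 := r2_lt6
  have hr0 := r2_pos
  have h1 : √(2 - r2) ^ 2 = 2 - r2 := Real.sq_sqrt (by linarith)
  have h2 : √(2 + r2) ^ 2 = 2 + r2 := Real.sq_sqrt (by linarith)
  rw [sin_pi_div_eight, cos_pi_div_eight]
  change (√(2 - r2) / 2) ^ 2 = (2 - r2) / 4 ∧ √(2 + r2) / 2 = (1 + r2) * (√(2 - r2) / 2)
  constructor
  · rw [div_pow, h1]
    norm_num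
  · have h3 : √(2 + r2) = (1 + r2) * √(2 - r2) := by
      rw [← Real.sqrt_sq (by linarith : 0 ≤ 1 + r2), ← Real.sqrt_mul (by positivity)]
      congr 1
      linear_combination (1 + r2 - 1) * hr - 0 * hr
    rw [h3]
    ring

private theorem O4_main {x : ℝ} (h0 : -(π / 8) ≤ x) (h1 : x < π / 8) :
    PP (x + π / 8) = sin x * Q4 (cos x) - kp * x := by
  have hpi := pi_pos
  obtain ⟨e1, e2⟩ := O4_s8
  have hr := r2_sq
  have hr0 := r2_pos
  have hcs := sin_sq_add_cos_sq x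
  have t0 : 0 ≤ x + π / 8 := by linarith
  have t1 : x + π / 8 < π / 4 := by linarith
  rw [PP_eq t0 t1, G0_formula t0 t1.le, hs_formula t0 t1.le]
  have hw := WW_sq t0 t1.le
  have hw0 : 0 ≤ WW (x + π / 8) := Real.sqrt_nonneg _
  generalize WW (x + π / 8) = W at hw hw0
  have s0 : 0 < sin (π / 8) := sin_pos_of_pos_of_lt_pi (by positivity) (by linarith)
  have hcx : 0 < cos x := cos_pos_of_mem_Ioo ⟨by linarith, by linarith⟩
  rw [sin_add, cos_add, e2] at *
  generalize sin (π / 8) = s at *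
  generalize sin x = S at *
  generalize cos x = C at *
  -- `z = 1 / s`
  have e3 : (4 + 2 * r2) * s ^ 2 = 1 := by
    rw [e1]
    linear_combination (-1 / 2 : ℝ) * hr
  have e4 : √((8 + 8 * r2) * C ^ 2 - 2 * r2) = (4 + 2 * r2) * s * W := by
    have e5 : (8 + 8 * r2) * C ^ 2 - 2 * r2 = ((4 + 2 * r2) * s * W) ^ 2 := by
      rw [mul_pow, hw]
      linear_combination (32 * C * S + 16 * C * S * r2 + 64 * C * S * r2 * s^2 +
        (-24) * C * S * r2^2 + (-16) * C * S * r2^2 * s^2 + (-12) * C * S * r2^3 +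
        (-32) * C * S * r2^3 * s^2 + 4 * C * S * r2^4 + (-8) * C * S * r2^4 * s^2 +
        2 * C * S * r2^5 + 64 * C * S * s^2 + (-32) * C^2 + (-64) * C^2 * r2 +
        (-160) * C^2 * r2 * s^2 + (-32) * C^2 * r2^2 + (-144) * C^2 * r2^2 * s^2 +
        8 * C^2 * r2^3 + (-56) * C^2 * r2^3 * s^2 + 10 * C^2 * r2^4 + (-8) * C^2 * r2^4 * s^2 +
        2 * C^2 * r2^5 + (-64) * C^2 * s^2 + 16 * S^2 * r2 + 32 * S^2 * r2 * s^2 +
        8 * S^2 * r2^2 + 32 * S^2 * r2^2 * s^2 + (-4) * S^2 * r2^3 + 8 * S^2 * r2^3 * s^2 +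
        (-2) * S^2 * r2^4) * e1 +
        ((-8) * C * S + 4 * C * S * r2^2 + (-1/2) * C * S * r2^4 + 4 * C^2 + 9 * C^2 * r2 +
        2 * C^2 * r2^2 + (-3/2) * C^2 * r2^3 + (-1/2) * C^2 * r2^4 + (-3) * S^2 * r2 +
        (1/2) * S^2 * r2^3) * hr + (2 * r2) * hcs
    rw [e5, Real.sqrt_sq (by positivity)]
  have e6 : kp * (π / 8) = (2 - r2) / 2 := by
    have := kp_mul
    linarith
  unfold Q4
  rw [e4]
  linear_combination (4 * C * S + 6 * C * S * r2 + 4 * C * S * r2^2 + 3 * C * S * r2^3 +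
    C * S * r2^4 + C^2 * r2^2 + C^2 * r2^3 + 2 * S^2 * r2 + S^2 * r2^2) * e1 +
    ((-1/4) * C * S * r2^2 + (-1/4) * C * S * r2^3 + (1/4) * C^2 * r2 + (-1/4) * C^2 * r2^2 +
    (-1) * S * W * s + (-1/4) * S^2 * r2) * hr + ((1/2) * r2) * hcs - e6

theorem PP_abs (φ : ℝ) : |PP φ| ≤ 92 / 10000 := by
  have hpi := pi_pos
  obtain ⟨n, t, h0, h1, rfl⟩ := angle_red φ
  rw [PP_int]
  have e := O4_main (x := t - π / 8) (by linarith) (by linarith)
  rw [sub_add_cancel] at e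
  rw [e]
  rcases le_total 0 (t - π / 8) with h | h
  · exact O4_f h (by linarith)
  · have h2 := O4_f (x := -(t - π / 8)) (by linarith) (by linarith)
    rw [sin_neg, cos_neg] at h2
    rw [← abs_neg]
    refine le_trans (le_of_eq ?_) h2
    congr 1
    ring

end Octa
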