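import Pool.Agent.H81.Oct.O4

/-! # O5: the choice of the separating lines and the potential of an edge -/

set_option autoImplicit false

namespace Octa

open Pool.H61.Sm Real

/-- The bodies are separated: `x`, `y` are the directions to the other centre, relative to the
orientations of the bodies, `l` is the distance of the centres and `d` is the angle from the
direction to the other centre to the normal of a separating line. -/
def Sp (x y l : ℝ) : Prop := ∃ d, hs (x + d) + hs (y + d) ≤ l * cos d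

/-- The good separating lines. -/
def Gd (x y l d : ℝ) : Prop := |d| ≤ 339 / 1000 ∧ hs (x + d) + hs (y + d) ≤ l * cos d ∧
  (d = 0 ∨ (hs (x + d) + hs (y + d) = l * cos d ∧ l ≤ 53 / 25))

theorem cos_339 : cos (339 / 1000) < 943396 / 1000000 := by
  have h := cos_bound (x := 339 / 1000) (by rw [abs_of_pos] <;> norm_num)
  rw [abs_le] at h
  have h2 := h.2
  rw [abs_of_pos (by norm_num : (0 : ℝ) < 339 / 1000)] at h2
  norm_num at h2
  linarith

theorem Gd_exists {x y l : ℝ} (h : Sp x y l) (hl : 0 ≤ l) : ∃ d, Gd x y l d := by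
  obtain ⟨d₀, hd⟩ := h
  rcases le_or_gt (hs x + hs y) l with h1 | h1
  · exact ⟨0, by norm_num, by simpa using h1, Or.inl rfl⟩
  have hpi := pi_pos
  -- reduction of the angle
  obtain ⟨n, hn⟩ : ∃ n : ℤ, d₀ + n * (2 * π) ∈ Set.Ico (-π) π := by
    refine ⟨-⌊(d₀ + π) / (2 * π)⌋, ?_, ?_⟩
    · have h2 := Int.floor_le ((d₀ + π) / (2 * π))
      rw [le_div_iff₀ (by positivity)] at h2
      push_cast
      linarith
    · have h2 := Int.lt_floor_add_one ((d₀ + π) / (2 * π))
      rw [div_lt_iff₀ (by positivity)] at h2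
      push_cast
      linarith
  set d₁ := d₀ + n * (2 * π) with hd1
  have e1 : ∀ z : ℝ, hs (z + d₁) = hs (z + d₀) := by
    intro z
    have h2 := hs_int (z + d₀) (8 * n)
    rw [← h2, hd1]
    congr 1
    push_cast
    ring
  have e2 : cos d₁ = cos d₀ := by
    rw [hd1, cos_add_int_mul_two_pi]
  rw [← e1, ← e1, ← e2] at hd
  have hpos : 0 < cos d₁ := by
    have a1 := one_le_hs (x + d₁)
    have a2 := one_le_hs (y + d₁)
    by_contra hneg
    have := mul_nonpos_of_nonneg_of_nonpos hl (not_lt.1 hneg)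
    linarith
  have hlt : |d₁| < π / 2 := by
    rw [abs_lt]
    constructor
    · by_contra hneg
      have h3 : cos (-d₁) ≤ 0 :=
        cos_nonpos_of_pi_div_two_le_of_le (by linarith) (by linarith [hn.1])
      rw [cos_neg] at h3
      linarith
    · by_contra hneg
      have h3 : cos d₁ ≤ 0 :=
        cos_nonpos_of_pi_div_two_le_of_le (by linarith) (by linarith [hn.2])
      linarith
  -- the intermediate value theorem
  set F : ℝ → ℝ := fun t => hs (x + t) + hs (y + t) - l * cos t with hF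
  have hc : Continuous F := by
    have h3 := hs_continuous
    have h4 : Continuous fun t => hs (x + t) := h3.comp (by fun_prop)
    have h5 : Continuous fun t => hs (y + t) := h3.comp (by fun_prop)
    exact (h4.add h5).sub (by fun_prop)
  have h0 : (0 : ℝ) ∈ Set.uIcc (F 0) (F d₁) := by
    rw [Set.mem_uIcc]
    right
    constructor
    · simp only [hF]
      linarith
    · simp only [hF, add_zero, cos_zero, mul_one]
      linarith
  obtain ⟨t, ht, hFt⟩ := intermediate_value_uIcc (hc.continuousOn (s := Set.uIcc 0 d₁)) h0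
  have ht' : |t| < π / 2 := by
    refine lt_of_le_of_lt ?_ hlt
    rw [Set.mem_uIcc] at ht
    rcases ht with h3 | h3
    · rw [abs_of_nonneg h3.1, abs_of_nonneg (h3.1.trans h3.2)]
      exact h3.2
    · rw [abs_of_nonpos h3.2, abs_of_nonpos (h3.1.trans h3.2)]
      linarith [h3.1]
  have hFt' : hs (x + t) + hs (y + t) = l * cos t := by
    simp only [hF] at hFt
    linarith
  have hl2 : l ≤ 53 / 25 := by
    have := hs_le x
    have := hs_le y
    linarith
  refine ⟨t, ?_, hFt'.le, Or.inr ⟨hFt', hl2⟩⟩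
  by_contra hneg
  have h3 : cos |t| ≤ cos (339 / 1000) :=
    cos_le_cos_of_nonneg_of_le_pi (by norm_num) (by linarith) (not_le.1 hneg).le
  rw [cos_abs] at h3
  have h4 := cos_339
  have a1 := one_le_hs (x + t)
  have a2 := one_le_hs (y + t)
  nlinarith

/-- The chosen direction. -/
noncomputable def dl (x y l : ℝ) : ℝ := Classical.epsilon (Gd x y l)

theorem dl_good {x y l : ℝ} (h : Sp x y l) (hl : 0 ≤ l) : Gd x y l (dl x y l) :=
  Classical.epsilon_spec (Gd_exists h hl)

theorem dl_comm (x y l : ℝ) : dl x y l = dl y x l := by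
  unfold dl
  congr 1
  funext d
  unfold Gd
  rw [add_comm (hs (x + d))]

theorem hs_turn (x : ℝ) (n : ℤ) : hs (x + n * (2 * π)) = hs x := by
  rw [← hs_int x (8 * n)]
  congr 1
  push_cast
  ring

theorem PP_turn (x : ℝ) (n : ℤ) : PP (x + n * (2 * π)) = PP x := by
  rw [← PP_int x (8 * n)]
  congr 1
  push_cast
  ring

theorem dl_turn (x y l : ℝ) (m n : ℤ) :
    dl (x + m * (2 * π)) (y + n * (2 * π)) l = dl x y l := by
  unfold dl
  congr 1
  funext d
  unfold Gd
  rw [show x + m * (2 * π) + d = x + d + m * (2 * π) by ring,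
    show y + n * (2 * π) + d = y + d + n * (2 * π) by ring, hs_turn, hs_turn]

theorem Sp_comm {x y l : ℝ} (h : Sp x y l) : Sp y x l := by
  obtain ⟨d, hd⟩ := h
  exact ⟨d, by linarith⟩

theorem Sp_turn {x y l : ℝ} (m n : ℤ) (h : Sp x y l) :
    Sp (x + m * (2 * π)) (y + n * (2 * π)) l := by
  obtain ⟨d, hd⟩ := h
  refine ⟨d, ?_⟩
  rw [show x + m * (2 * π) + d = x + d + m * (2 * π) by ring,
    show y + n * (2 * π) + d = y + d + n * (2 * π) by ring, hs_turn, hs_turn]
  exact hd

theorem Sp_two {x y l : ℝ} (h : Sp x y l) (hl : 0 ≤ l) : 2 ≤ l := by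
  obtain ⟨d, hd⟩ := h
  have a1 := one_le_hs (x + d)
  have a2 := one_le_hs (y + d)
  have := mul_le_mul_of_nonneg_left (cos_le_one d) hl
  linarith

/-- The uncut potential of an edge. -/
noncomputable def et (x y l : ℝ) : ℝ := PP (y + dl x y l) - PP (x + dl x y l) +
  (hs (x + dl x y l) - hs (y + dl x y l)) / 2 * (l * sin (dl x y l))

open scoped Classical in
/-- The potential of an edge. -/
noncomputable def eta (x y l : ℝ) : ℝ := if l < 47 / 20 then et x y l else 0

theorem eta_neg (x y l : ℝ) : eta x y l = -eta y x l := by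
  unfold eta et
  rw [dl_comm x y]
  split_ifs
  · ring
  · simp

theorem eta_turn (x y l : ℝ) (m n : ℤ) :
    eta (x + m * (2 * π)) (y + n * (2 * π)) l = eta x y l := by
  unfold eta et
  rw [dl_turn, show x + m * (2 * π) + dl x y l = x + dl x y l + m * (2 * π) by ring,
    show y + n * (2 * π) + dl x y l = y + dl x y l + n * (2 * π) by ring, hs_turn, hs_turn,
    PP_turn, PP_turn]

private theorem O5_sec {x y l d : ℝ} (h : Gd x y l d) (hl : 0 ≤ l) :
    |(hs (x + d) - hs (y + d)) / 2 * (l * sin d)| ≤ 165 / 10000 := by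
  obtain ⟨-, h1, h2⟩ := h
  rcases h2 with rfl | ⟨h2, h3⟩
  · norm_num
  have a1 := one_le_hs (x + d)
  have a2 := one_le_hs (y + d)
  have b1 := hs_le (x + d)
  have b2 := hs_le (y + d)
  apply abs_le_of_sq_le_sq _ (by norm_num)
  rw [mul_pow, mul_pow]
  have hcs := sin_sq_add_cos_sq d
  generalize hs (x + d) = a at *
  generalize hs (y + d) = b at *
  have e : l ^ 2 * sin d ^ 2 = l ^ 2 - (a + b) ^ 2 := by
    rw [h2, mul_pow]
    linear_combination (l ^ 2) * hcs
  rw [e]
  have h6 : l ^ 2 ≤ (53 / 25) ^ 2 := pow_le_pow_left₀ hl h3 2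
  wlog hab : b ≤ a generalizing a b with H
  · have h7 := H b a2 b2 a a1 b1 (by linarith) (by linarith) (by rw [e]; ring) (by linarith)
    refine le_trans (le_of_eq ?_) h7
    ring
  set t := a - b with ht
  have t0 : 0 ≤ t := by linarith
  have t1 : t ≤ 6 / 100 := by linarith
  have h8 : l ^ 2 - (a + b) ^ 2 ≤ (53 / 25) ^ 2 - (2 + t) ^ 2 := by nlinarith
  have h9 : (t / 2) ^ 2 * (l ^ 2 - (a + b) ^ 2) ≤ (t / 2) ^ 2 * ((53 / 25) ^ 2 - (2 + t) ^ 2) :=
    mul_le_mul_of_nonneg_left h8 (by positivity)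
  have h10 : (t / 2) ^ 2 * ((53 / 25) ^ 2 - (2 + t) ^ 2) ≤ (165 / 10000) ^ 2 := by
    have h11 : 0 ≤ (6 / 100 - t) * (3816 / 1000000 + t * (636 / 10000 - t)) := by
      apply mul_nonneg (by linarith)
      have : 0 ≤ t * (636 / 10000 - t) := mul_nonneg t0 (by linarith)
      linarith
    nlinarith [mul_nonneg t0 t0, mul_nonneg (mul_nonneg t0 t0) (mul_nonneg t0 t0)]
  linarith

theorem et_abs {x y l : ℝ} (h : Sp x y l) (hl : 0 ≤ l) : |et x y l| ≤ 35 / 1000 := by
  have hd := dl_good h hl
  have h1 := abs_le.1 (O5_sec hd hl)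
  have h2 := abs_le.1 (PP_abs (y + dl x y l))
  have h3 := abs_le.1 (PP_abs (x + dl x y l))
  unfold et
  rw [abs_le]
  constructor
  · linarith [h1.1, h2.1, h3.2]
  · linarith [h1.2, h2.2, h3.1]

theorem eta_abs {x y l : ℝ} (h : Sp x y l) (hl : 0 ≤ l) : |eta x y l| ≤ 35 / 1000 := by
  unfold eta
  split_ifs
  · exact et_abs h hl
  · norm_num

end Octa
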