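import Pool.Agent.H81.Oct.O2

/-! # O6: the triangle inequality of areas

The triangle of the centres of three bodies is the union of three corners, three edge pieces and
the triangle between the separating lines. -/

set_option autoImplicit false

namespace Octa

open Real

private theorem O6_poly {C1 S1 C2 S2 : ℝ} (x2 y2 x3 y3 p q w : ℝ) (h1 : C1 ^ 2 + S1 ^ 2 = 1)
    (h2 : C2 ^ 2 + S2 ^ 2 = 1) {p21 p32 p13 F1 F2 D S3 C3 : ℝ} (e21 : p21 = x2 - p)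
    (e32 : p32 = -C2 * (x3 - x2) + S2 * (y3 - y2) - q) (e13 : p13 = C1 * x3 + S1 * y3 - w)
    (eF1 : F1 = (x3 - x2) * S2 + (y3 - y2) * C2) (eF2 : F2 = x3 * S1 - y3 * C1)
    (eS3 : S3 = S1 * C2 + C1 * S2) (eC3 : C3 = S1 * S2 - C1 * C2)
    (eD : D = p * S3 + (q - C2 * x2 + S2 * y2) * S1 - p13 * S2) :
    S1 * S2 * S3 * (x2 * y3 - x3 * y2) =
      (2 * p * p13 - (p ^ 2 + p13 ^ 2) * C1) * S2 * S3 +
      (2 * q * p21 - (q ^ 2 + p21 ^ 2) * C2) * S1 * S3 +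
      (2 * w * p32 - (w ^ 2 + p32 ^ 2) * C3) * S1 * S2 +
      S1 * S2 * S3 * ((p - p21) * (-y2) + (q - p32) * F1 + (w - p13) * F2) + D ^ 2 := by
  subst eD
  subst e21 e32 e13 eF1 eF2 eS3 eC3
  linear_combination (C1 * C2 * S1 * S2 * x3^2 + C1 * S1 * S2^2 * x3 * y3 +
    (-2) * C1 * S2^2 * w * x3 + C1^2 * S2^2 * x3^2 + (-2) * C2 * S1 * S2 * w * x3 +
    C2 * S1^2 * S2 * x3 * y3 + S2^2 * w^2) * h1 +
    (2 * C1 * C2 * S1 * S2 * x2 * x3 + (-1) * C1 * C2 * S1 * S2 * x2^2 +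
    (-1) * C1 * C2 * S1 * S2 * x3^2 + 2 * C1 * S1 * S2 * q * x2 + (-2) * C1 * S1 * S2 * q * x3 +
    C1 * S1 * S2^2 * x2 * y2 + (-1) * C1 * S1 * S2^2 * x2 * y3 + (-1) * C1 * S1 * S2^2 * x3 * y2 +
    C1 * S1 * S2^2 * x3 * y3 + (-1) * C2 * S1^2 * S2 * x2 * y2 + C2 * S1^2 * S2 * x2 * y3 +
    C2 * S1^2 * S2 * x3 * y2 + (-1) * C2 * S1^2 * S2 * x3 * y3 + 2 * S1^2 * S2 * q * y2 +
    (-2) * S1^2 * S2 * q * y3 + (-2) * S1^2 * S2^2 * y2 * y3 + S1^2 * S2^2 * y2^2 +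
    S1^2 * S2^2 * y3^2 + S1^2 * q^2) * h2

theorem tri_ineq {R a₁ a₂ a₃ d₁ d₂ d₃ p12 p21 p23 p32 p31 p13 : ℝ} (ha : a₁ + a₂ + a₃ = π)
    (e3 : p12 + p21 = 2 * R * sin a₃ * cos d₃) (e1 : p23 + p32 = 2 * R * sin a₁ * cos d₁)
    (e2 : p31 + p13 = 2 * R * sin a₂ * cos d₂) (s1 : 0 < sin (a₁ + d₂ - d₃))
    (s2 : 0 < sin (a₂ + d₃ - d₁)) (s3 : 0 < sin (a₃ + d₁ - d₂)) :
    qq p12 p13 (a₁ + d₂ - d₃) + qq p23 p21 (a₂ + d₃ - d₁) + qq p31 p32 (a₃ + d₁ - d₂) +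
      ((p12 - p21) / 2 * (2 * R * sin a₃ * sin d₃) + (p23 - p32) / 2 * (2 * R * sin a₁ * sin d₁) +
      (p31 - p13) / 2 * (2 * R * sin a₂ * sin d₂)) ≤ 2 * R ^ 2 * (sin a₁ * sin a₂ * sin a₃) := by
  set B1 := a₁ + d₂ - d₃ with hB1
  set B2 := a₂ + d₃ - d₁ with hB2
  have hB3 : a₃ + d₁ - d₂ = π - (B1 + B2) := by linarith
  rw [hB3] at s3 ⊢
  have hS3 : sin (π - (B1 + B2)) = sin B1 * cos B2 + cos B1 * sin B2 := by
    rw [sin_pi_sub, sin_add]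
  have hC3 : cos (π - (B1 + B2)) = sin B1 * sin B2 - cos B1 * cos B2 := by
    rw [cos_pi_sub, cos_add]
    ring
  have h1 : cos B1 ^ 2 + sin B1 ^ 2 = 1 := cos_sq_add_sin_sq B1
  have h2 : cos B2 ^ 2 + sin B2 ^ 2 = 1 := cos_sq_add_sin_sq B2
  set x2 := 2 * R * sin a₃ * cos d₃ with hx2
  set y2 := -(2 * R * sin a₃ * sin d₃) with hy2
  set x3 := 2 * R * sin a₂ * cos (a₁ - d₃) with hx3
  set y3 := 2 * R * sin a₂ * sin (a₁ - d₃) with hy3
  -- closing relations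
  have k3 : sin a₃ = sin a₁ * cos a₂ + cos a₁ * sin a₂ := by
    rw [← sin_add, ← sin_pi_sub]
    congr 1
    linarith
  have hx : x3 - x2 = -(2 * R * sin a₁ * cos (a₂ + d₃)) := by
    rw [hx3, hx2, cos_sub, cos_add, k3]
    ring
  have hy : y3 - y2 = 2 * R * sin a₁ * sin (a₂ + d₃) := by
    rw [hy3, hy2, sin_sub, sin_add, k3]
    ring
  have f32 : p32 = -cos B2 * (x3 - x2) + sin B2 * (y3 - y2) - p23 := by
    rw [hx, hy]
    have : cos d₁ = cos (a₂ + d₃) * cos B2 + sin (a₂ + d₃) * sin B2 := by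
      rw [← cos_sub]
      congr 1
      rw [hB2]
      ring
    rw [this] at e1
    linarith
  have f13 : p13 = cos B1 * x3 + sin B1 * y3 - p31 := by
    have : cos d₂ = cos B1 * cos (a₁ - d₃) + sin B1 * sin (a₁ - d₃) := by
      rw [← cos_sub]
      congr 1
      rw [hB1]
      ring
    rw [this] at e2
    rw [hx3, hy3]
    linarith
  have g1 : 2 * R * sin a₁ * sin d₁ = (x3 - x2) * sin B2 + (y3 - y2) * cos B2 := by
    rw [hx, hy]
    have : sin d₁ = sin (a₂ + d₃) * cos B2 - cos (a₂ + d₃) * sin B2 := by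
      rw [← sin_sub]
      congr 1
      rw [hB2]
      ring
    rw [this]
    ring
  have g2 : 2 * R * sin a₂ * sin d₂ = x3 * sin B1 - y3 * cos B1 := by
    have : sin d₂ = sin B1 * cos (a₁ - d₃) - cos B1 * sin (a₁ - d₃) := by
      rw [← sin_sub]
      congr 1
      rw [hB1]
      ring
    rw [this, hx3, hy3]
    ring
  have harea : 2 * R ^ 2 * (sin a₁ * sin a₂ * sin a₃) = (x2 * y3 - x3 * y2) / 2 := by
    have : sin a₁ = sin (a₁ - d₃) * cos d₃ + cos (a₁ - d₃) * sin d₃ := by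
      rw [← sin_add]
      congr 1
      ring
    rw [hx2, hy2, hx3, hy3, this]
    ring
  have key := O6_poly x2 y2 x3 y3 p12 p23 p31 h1 h2 (p21 := p21) (p32 := p32) (p13 := p13)
    (by linarith) f32 f13 rfl rfl hS3 hC3 rfl
  rw [harea, g1, g2]
  have n3 : 2 * R * sin a₃ * sin d₃ = -y2 := by rw [hy2]; ring
  rw [n3]
  have q1 : qq p12 p13 B1 * (2 * sin B1) = 2 * p12 * p13 - (p12 ^ 2 + p13 ^ 2) * cos B1 := by
    exact div_mul_cancel₀ _ (by positivity)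
  have q2 : qq p23 p21 B2 * (2 * sin B2) = 2 * p23 * p21 - (p23 ^ 2 + p21 ^ 2) * cos B2 := by
    exact div_mul_cancel₀ _ (by positivity)
  have q3 : qq p31 p32 (π - (B1 + B2)) * (2 * sin (π - (B1 + B2))) =
      2 * p31 * p32 - (p31 ^ 2 + p32 ^ 2) * cos (π - (B1 + B2)) := by
    exact div_mul_cancel₀ _ (by positivity)
  rw [← q1, ← q2, ← q3] at key
  generalize qq p12 p13 B1 = Q1 at *
  generalize qq p23 p21 B2 = Q2 at *
  generalize qq p31 p32 (π - (B1 + B2)) = Q3 at *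
  have hpos : 0 < sin B1 * sin B2 * sin (π - (B1 + B2)) := by positivity
  have hD := sq_nonneg (p12 * sin (π - (B1 + B2)) + (p23 - cos B2 * x2 + sin B2 * y2) * sin B1 -
    p13 * sin B2)
  have h5 : sin B1 * sin B2 * sin (π - (B1 + B2)) * (2 * (Q1 + Q2 + Q3 + ((p12 - p21) / 2 * (-y2) +
      (p23 - p32) / 2 * ((x3 - x2) * sin B2 + (y3 - y2) * cos B2) +
      (p31 - p13) / 2 * (x3 * sin B1 - y3 * cos B1)))) ≤
      sin B1 * sin B2 * sin (π - (B1 + B2)) * (x2 * y3 - x3 * y2) := by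
    rw [key]
    linarith [hD]
  have h6 := le_of_mul_le_mul_left h5 hpos
  linarith

end Octa
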