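import Pool.Agent.H81.Oct.O5
import Pool.Agent.H81.Oct.O6

/-! # O7: the inequality for triangles with short edges -/

set_option autoImplicit false

namespace Octa

open Pool.H61.Sm Real

/-- half of the slack of the separation -/
noncomputable def sg (x y l : ℝ) : ℝ :=
  (l * cos (dl x y l) - hs (x + dl x y l) - hs (y + dl x y l)) / 2

theorem sg_data {x y l : ℝ} (h : Sp x y l) (hl : 0 ≤ l) :
    |dl x y l| ≤ 339 / 1000 ∧ 0 ≤ sg x y l ∧ (sg x y l = 0 ∨ dl x y l = 0) ∧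
      sg x y l ≤ (l - 2) / 2 := by
  obtain ⟨h1, h2, h3⟩ := dl_good h hl
  have a1 := one_le_hs (x + dl x y l)
  have a2 := one_le_hs (y + dl x y l)
  have hc := mul_le_mul_of_nonneg_left (cos_le_one (dl x y l)) hl
  refine ⟨h1, ?_, ?_, ?_⟩
  · unfold sg
    linarith
  · rcases h3 with h3 | ⟨h3, -⟩
    · exact Or.inr h3
    · left
      unfold sg
      linarith
  · unfold sg
    linarith

private theorem O7_cos521 : cos (521 / 1000) < 87 / 100 := by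
  have h := cos_bound (x := 521 / 1000) (by rw [abs_of_pos] <;> norm_num)
  rw [abs_le] at h
  have h2 := h.2
  rw [abs_of_pos (by norm_num : (0 : ℝ) < 521 / 1000)] at h2
  norm_num at h2
  linarith

private theorem O7_cos86 : 64 / 100 < cos (86 / 100) := by
  have h := cos_bound (x := 43 / 100) (by rw [abs_of_pos] <;> norm_num)
  rw [abs_le] at h
  have h2 := h.1
  rw [abs_of_pos (by norm_num : (0 : ℝ) < 43 / 100)] at h2
  norm_num at h2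
  have h3 : cos (86 / 100) = 2 * cos (43 / 100) ^ 2 - 1 := by
    rw [← cos_two_mul]
    congr 1
    norm_num
  rw [h3]
  nlinarith

/-- the inequality for a corner -/
theorem corner {a x d e s t : ℝ} (ha0 : 86 / 100 ≤ a) (ha1 : a ≤ π / 2) (hd : |d| ≤ 339 / 1000)
    (he : |e| ≤ 339 / 1000) (s0 : 0 ≤ s) (s1 : s ≤ 7 / 40) (t0 : 0 ≤ t) (t1 : t ≤ 7 / 40)
    (hsd : s = 0 ∨ d = 0) (hte : t = 0 ∨ e = 0) :
    0 < sin (a + e - d) ∧ 2 * r2 - 3 + (GG (x + a + e) - GG (x + d)) ≤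
      qq (hs (x + d) + s) (hs (x + a + e) + t) (a + e - d) := by
  have hpi := pi_gt_d6
  rw [abs_le] at hd he
  have hsin : 0 < sin (a + e - d) :=
    sin_pos_of_pos_of_lt_pi (by linarith [hd.2, he.1]) (by linarith [hd.1, he.2])
  refine ⟨hsin, ?_⟩
  have h1 := EE_ge (x := x + d) (y := x + a + e) (by linarith [hd.2, he.1])
    (by linarith [hd.1, he.2])
  unfold EE at h1
  rw [show x + a + e - (x + d) = a + e - d by ring] at h1
  have h2 : qq (hs (x + d)) (hs (x + a + e)) (a + e - d) ≤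
      qq (hs (x + d) + s) (hs (x + a + e) + t) (a + e - d) := by
    by_cases hst : s = 0 ∧ t = 0
    · rw [hst.1, hst.2, add_zero, add_zero]
    · have hcos : cos (a + e - d) ≤ 87 / 100 := by
        have h3 : 521 / 1000 ≤ a + e - d := by
          rcases hsd with h | h
          · rcases hte with h' | h'
            · exact absurd ⟨h, h'⟩ hst
            · rw [h']
              linarith [hd.2]
          · rw [h]
            linarith [he.1]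
        have h4 := cos_le_cos_of_nonneg_of_le_pi (by norm_num : (0 : ℝ) ≤ 521 / 1000)
          (by linarith [hd.1, he.2] : a + e - d ≤ π) h3
        linarith [O7_cos521]
      have a1 := one_le_hs (x + d)
      have a2 := one_le_hs (x + a + e)
      have b1 := hs_le (x + d)
      have b2 := hs_le (x + a + e)
      have key : ∀ h k u : ℝ, 1 ≤ h → 1 ≤ k → h ≤ 53 / 50 → 0 ≤ u → u ≤ 7 / 40 →
          u * cos (a + e - d) ≤ 2 * (k - h * cos (a + e - d)) := by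
        intro h k u a1 a2 b1 u0 u1
        rcases le_total (cos (a + e - d)) 0 with hc | hc
        · have := mul_nonpos_of_nonneg_of_nonpos u0 hc
          have := mul_nonpos_of_nonneg_of_nonpos (by linarith : 0 ≤ h) hc
          linarith
        · have := mul_le_mul_of_nonneg_right u1 hc
          have := mul_le_mul_of_nonneg_right b1 hc
          linarith
      exact qq_mono s0 t0 hsin (key _ _ _ a1 a2 b1 s0 s1) (key _ _ _ a2 a1 b2 t0 t1)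
  linarith

theorem law_cos {a₁ a₂ a₃ : ℝ} (R : ℝ) (ha : a₁ + a₂ + a₃ = π) :
    (2 * R * sin a₁) ^ 2 = (2 * R * sin a₂) ^ 2 + (2 * R * sin a₃) ^ 2 -
      2 * (2 * R * sin a₂) * (2 * R * sin a₃) * cos a₁ := by
  have h1 : sin a₁ = sin a₂ * cos a₃ + cos a₂ * sin a₃ := by
    rw [← sin_add, ← sin_pi_sub]
    congr 1
    linarith
  have h2 : cos a₁ = sin a₂ * sin a₃ - cos a₂ * cos a₃ := by
    have : a₁ = π - (a₂ + a₃) := by linarith
    rw [this, cos_pi_sub, cos_add]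
    ring
  rw [h1, h2]
  have c2 := sin_sq_add_cos_sq a₂
  have c3 := sin_sq_add_cos_sq a₃
  linear_combination (4 * R ^ 2 * sin a₃ ^ 2) * c2 + (4 * R ^ 2 * sin a₂ ^ 2) * c3

/-- the angles of a short triangle are at least `0.86` -/
theorem angle_ge {a₁ a₂ a₃ R : ℝ} (ha : a₁ + a₂ + a₃ = π) (h0 : 0 ≤ a₁)
    (l1 : 2 ≤ 2 * R * sin a₁) (l2 : 2 ≤ 2 * R * sin a₂) (l3 : 2 ≤ 2 * R * sin a₃)
    (m2 : 2 * R * sin a₂ < 47 / 20) (m3 : 2 * R * sin a₃ < 47 / 20) : 86 / 100 ≤ a₁ := by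
  by_contra hneg
  have h1 := cos_lt_cos_of_nonneg_of_le_pi h0 (by linarith [pi_gt_three]) (not_le.1 hneg)
  have h2 := O7_cos86
  have h3 := law_cos R ha
  generalize 2 * R * sin a₁ = u at *
  generalize 2 * R * sin a₂ = v at *
  generalize 2 * R * sin a₃ = w at *
  have h4 : 64 / 100 < cos a₁ := by linarith
  have h5 : v * w * (64 / 100) ≤ v * w * cos a₁ :=
    mul_le_mul_of_nonneg_left h4.le (by nlinarith)
  nlinarith [mul_nonneg (sub_nonneg.2 l2) (sub_nonneg.2 m2.le),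
    mul_nonneg (sub_nonneg.2 l3) (sub_nonneg.2 m3.le),
    mul_nonneg (sub_nonneg.2 m2.le) (sub_nonneg.2 m3.le)]

/-- the inequality for triangles with short edges -/
theorem locT_short {R x₁ x₂ x₃ a₁ a₂ a₃ : ℝ} (ha : a₁ + a₂ + a₃ = π) (hR : 0 < R)
    (h₁ : a₁ ∈ Set.Icc (π / 4) (π / 2)) (h₂ : a₂ ∈ Set.Icc (π / 4) (π / 2))
    (h₃ : a₃ ∈ Set.Icc (π / 4) (π / 2)) (s₃ : Sp x₁ (x₂ + a₂) (2 * R * sin a₃))
    (s₁ : Sp x₂ (x₃ + a₃) (2 * R * sin a₁)) (s₂ : Sp x₃ (x₁ + a₁) (2 * R * sin a₂))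
    (m₁ : 2 * R * sin a₁ < 47 / 20) (m₂ : 2 * R * sin a₂ < 47 / 20)
    (m₃ : 2 * R * sin a₃ < 47 / 20) :
    et x₁ (x₂ + a₂) (2 * R * sin a₃) + et x₂ (x₃ + a₃) (2 * R * sin a₁) +
      et x₃ (x₁ + a₁) (2 * R * sin a₂) ≤
    2 * R ^ 2 * (sin a₁ * sin a₂ * sin a₃) - (4 * r2 - 2) / 2 := by
  have hpi := pi_pos
  have n₁ : 0 ≤ 2 * R * sin a₁ := by
    have := sin_nonneg_of_nonneg_of_le_pi (by linarith [h₁.1]) (by linarith [h₁.2] : a₁ ≤ π)
    positivity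
  have n₂ : 0 ≤ 2 * R * sin a₂ := by
    have := sin_nonneg_of_nonneg_of_le_pi (by linarith [h₂.1]) (by linarith [h₂.2] : a₂ ≤ π)
    positivity
  have n₃ : 0 ≤ 2 * R * sin a₃ := by
    have := sin_nonneg_of_nonneg_of_le_pi (by linarith [h₃.1]) (by linarith [h₃.2] : a₃ ≤ π)
    positivity
  have t₁ := Sp_two s₁ n₁
  have t₂ := Sp_two s₂ n₂
  have t₃ := Sp_two s₃ n₃
  have g₁ := angle_ge ha (by linarith [h₁.1]) t₁ t₂ t₃ m₂ m₃
  have g₂ := angle_ge (a₁ := a₂) (a₂ := a₃) (a₃ := a₁) (by linarith) (by linarith [h₂.1])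
    t₂ t₃ t₁ m₃ m₁
  have g₃ := angle_ge (a₁ := a₃) (a₂ := a₁) (a₃ := a₂) (by linarith) (by linarith [h₃.1])
    t₃ t₁ t₂ m₁ m₂
  obtain ⟨b₃, c₃, e₃, f₃⟩ := sg_data s₃ n₃
  obtain ⟨b₁, c₁, e₁, f₁⟩ := sg_data s₁ n₁
  obtain ⟨b₂, c₂, e₂, f₂⟩ := sg_data s₂ n₂
  unfold et
  have k₃ : (hs (x₁ + dl x₁ (x₂ + a₂) (2 * R * sin a₃)) + sg x₁ (x₂ + a₂) (2 * R * sin a₃)) +
      (hs (x₂ + a₂ + dl x₁ (x₂ + a₂) (2 * R * sin a₃)) + sg x₁ (x₂ + a₂) (2 * R * sin a₃)) =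
      2 * R * sin a₃ * cos (dl x₁ (x₂ + a₂) (2 * R * sin a₃)) := by
    unfold sg
    ring
  have k₁ : (hs (x₂ + dl x₂ (x₃ + a₃) (2 * R * sin a₁)) + sg x₂ (x₃ + a₃) (2 * R * sin a₁)) +
      (hs (x₃ + a₃ + dl x₂ (x₃ + a₃) (2 * R * sin a₁)) + sg x₂ (x₃ + a₃) (2 * R * sin a₁)) =
      2 * R * sin a₁ * cos (dl x₂ (x₃ + a₃) (2 * R * sin a₁)) := by
    unfold sg
    ring
  have k₂ : (hs (x₃ + dl x₃ (x₁ + a₁) (2 * R * sin a₂)) + sg x₃ (x₁ + a₁) (2 * R * sin a₂)) +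
      (hs (x₁ + a₁ + dl x₃ (x₁ + a₁) (2 * R * sin a₂)) + sg x₃ (x₁ + a₁) (2 * R * sin a₂)) =
      2 * R * sin a₂ * cos (dl x₃ (x₁ + a₁) (2 * R * sin a₂)) := by
    unfold sg
    ring
  generalize dl x₁ (x₂ + a₂) (2 * R * sin a₃) = d₃ at *
  generalize dl x₂ (x₃ + a₃) (2 * R * sin a₁) = d₁ at *
  generalize dl x₃ (x₁ + a₁) (2 * R * sin a₂) = d₂ at *
  generalize sg x₁ (x₂ + a₂) (2 * R * sin a₃) = σ₃ at *
  generalize sg x₂ (x₃ + a₃) (2 * R * sin a₁) = σ₁ at *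
  generalize sg x₃ (x₁ + a₁) (2 * R * sin a₂) = σ₂ at *
  obtain ⟨p₁, q₁⟩ := corner (x := x₁) g₁ h₁.2 b₃ b₂ c₃ (by linarith) c₂ (by linarith) e₃ e₂
  obtain ⟨p₂, q₂⟩ := corner (x := x₂) g₂ h₂.2 b₁ b₃ c₁ (by linarith) c₃ (by linarith) e₁ e₃
  obtain ⟨p₃, q₃⟩ := corner (x := x₃) g₃ h₃.2 b₂ b₁ c₂ (by linarith) c₁ (by linarith) e₂ e₁
  have key := tri_ineq ha k₃ k₁ k₂ p₁ p₂ p₃
  have hk := kp_mul
  have hG : GG (x₁ + a₁ + d₂) - GG (x₁ + d₃) + (GG (x₂ + a₂ + d₃) - GG (x₂ + d₁)) +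
      (GG (x₃ + a₃ + d₁) - GG (x₃ + d₂)) = PP (x₁ + a₁ + d₂) - PP (x₁ + d₃) +
      (PP (x₂ + a₂ + d₃) - PP (x₂ + d₁)) + (PP (x₃ + a₃ + d₁) - PP (x₃ + d₂)) +
      4 * (2 - r2) := by
    unfold GG
    linear_combination kp * ha + 4 * hk
  linarith

end Octa
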