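import Pool.Agent.H81.Oct.O7
import Pool.Agent.H69.Hep.Defs

/-! # O8: the inequality for triangles and the inequality for edges -/

set_option autoImplicit false

namespace Octa

open Pool.H61.Sm Real

private theorem O8_f {x y z : ℝ} (hx : 4 ≤ x) (hy : 4 ≤ y) (hz : 2209 / 400 ≤ z)
    (h1 : x ≤ y + z) (h2 : y ≤ x + z) (h3 : z ≤ x + y) :
    578 / 10 ≤ 4 * y * z - (y + z - x) ^ 2 := by
  have k1 : 0 ≤ (x - 4) * (y + z - x) := mul_nonneg (by linarith) (by linarith)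
  have k2 : 0 ≤ (y - 4) * (x + z - y) := mul_nonneg (by linarith) (by linarith)
  have k3 : 0 ≤ (z - 2209 / 400) * (x + y - z) := mul_nonneg (by linarith) (by linarith)
  nlinarith

private theorem O8_area {a₁ a₂ a₃ R : ℝ} (ha : a₁ + a₂ + a₃ = π) (hR : 0 < R)
    (h₁ : a₁ ∈ Set.Icc (π / 4) (π / 2)) (h₂ : a₂ ∈ Set.Icc (π / 4) (π / 2))
    (h₃ : a₃ ∈ Set.Icc (π / 4) (π / 2)) (t₁ : 2 ≤ 2 * R * sin a₁) (t₂ : 2 ≤ 2 * R * sin a₂)
    (t₃ : 47 / 20 ≤ 2 * R * sin a₃) :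
    18985 / 10000 ≤ 2 * R ^ 2 * (sin a₁ * sin a₂ * sin a₃) := by
  have hpi := pi_pos
  have e₁ := law_cos R ha
  have e₂ := law_cos (a₁ := a₂) (a₂ := a₃) (a₃ := a₁) R (by linarith)
  have e₃ := law_cos (a₁ := a₃) (a₂ := a₁) (a₃ := a₂) R (by linarith)
  have c₁ := cos_nonneg_of_mem_Icc (x := a₁) ⟨by linarith [h₁.1], h₁.2⟩
  have c₂ := cos_nonneg_of_mem_Icc (x := a₂) ⟨by linarith [h₂.1], h₂.2⟩
  have c₃ := cos_nonneg_of_mem_Icc (x := a₃) ⟨by linarith [h₃.1], h₃.2⟩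
  have s₁ := sin_pos_of_pos_of_lt_pi (by linarith [h₁.1]) (by linarith [h₁.2] : a₁ < π)
  have s₂ := sin_pos_of_pos_of_lt_pi (by linarith [h₂.1]) (by linarith [h₂.2] : a₂ < π)
  have s₃ := sin_pos_of_pos_of_lt_pi (by linarith [h₃.1]) (by linarith [h₃.2] : a₃ < π)
  have hcs := sin_sq_add_cos_sq a₁
  have hf : 16 * (2 * R ^ 2 * (sin a₁ * sin a₂ * sin a₃)) ^ 2 =
      4 * (2 * R * sin a₂) ^ 2 * (2 * R * sin a₃) ^ 2 -
      ((2 * R * sin a₂) ^ 2 + (2 * R * sin a₃) ^ 2 - (2 * R * sin a₁) ^ 2) ^ 2 := by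
    rw [e₁]
    linear_combination (64 * R ^ 4 * sin a₂ ^ 2 * sin a₃ ^ 2) * hcs
  set u := 2 * R * sin a₁ with hu
  set v := 2 * R * sin a₂ with hv
  set w := 2 * R * sin a₃ with hw
  have u0 : 0 ≤ u := by linarith
  have v0 : 0 ≤ v := by linarith
  have w0 : 0 ≤ w := by linarith
  have k1 : 0 ≤ v * w * cos a₁ := by positivity
  have k2 : 0 ≤ w * u * cos a₂ := by positivity
  have k3 : 0 ≤ u * v * cos a₃ := by positivity
  have hb := O8_f (x := u ^ 2) (y := v ^ 2) (z := w ^ 2) (by nlinarith) (by nlinarith)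
    (by nlinarith) (by linarith) (by linarith) (by linarith)
  rw [← hf] at hb
  apply le_of_sq_le_sq _ (by positivity)
  norm_num
  linarith

private theorem O8_long {l x y : ℝ} (h : 47 / 20 ≤ l) : eta x y l = 0 := by
  unfold eta
  rw [if_neg (not_lt.2 h)]

/-- The inequality for triangles. -/
theorem locT {R x₁ x₂ x₃ a₁ a₂ a₃ : ℝ} (ha : a₁ + a₂ + a₃ = π) (hR : 0 < R)
    (h₁ : a₁ ∈ Set.Icc (π / 4) (π / 2)) (h₂ : a₂ ∈ Set.Icc (π / 4) (π / 2))
    (h₃ : a₃ ∈ Set.Icc (π / 4) (π / 2)) (s₃ : Sp x₁ (x₂ + a₂) (2 * R * sin a₃))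
    (s₁ : Sp x₂ (x₃ + a₃) (2 * R * sin a₁)) (s₂ : Sp x₃ (x₁ + a₁) (2 * R * sin a₂)) :
    eta x₁ (x₂ + a₂) (2 * R * sin a₃) + eta x₂ (x₃ + a₃) (2 * R * sin a₁) +
      eta x₃ (x₁ + a₁) (2 * R * sin a₂) ≤
    2 * R ^ 2 * (sin a₁ * sin a₂ * sin a₃) - (4 * r2 - 2) / 2 := by
  have hpi := pi_pos
  have hr := r2_lt6
  have n₁ : 0 ≤ 2 * R * sin a₁ := by
    have := sin_nonneg_of_nonneg_of_le_pi (by linarith [h₁.1]) (by linarith [h₁.2] : a₁ ≤ π)
    positivity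
  have n₂ : 0 ≤ 2 * R * sin a₂ := by
    have := sin_nonneg_of_nonneg_of_le_pi (by linarith [h₂.1]) (by linarith [h₂.2] : a₂ ≤ π)
    positivity
  have n₃ : 0 ≤ 2 * R * sin a₃ := by
    have := sin_nonneg_of_nonneg_of_le_pi (by linarith [h₃.1]) (by linarith [h₃.2] : a₃ ≤ π)
    positivity
  have t₁ := Sp_two s₁ n₁
  have t₂ := Sp_two s₂ n₂
  have t₃ := Sp_two s₃ n₃
  have g₁ := abs_le.1 (eta_abs s₁ n₁)
  have g₂ := abs_le.1 (eta_abs s₂ n₂)
  have g₃ := abs_le.1 (eta_abs s₃ n₃)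
  rcases lt_or_ge (2 * R * sin a₃) (47 / 20) with m₃ | m₃
  · rcases lt_or_ge (2 * R * sin a₁) (47 / 20) with m₁ | m₁
    · rcases lt_or_ge (2 * R * sin a₂) (47 / 20) with m₂ | m₂
      · unfold eta
        rw [if_pos m₁, if_pos m₂, if_pos m₃]
        exact locT_short ha hR h₁ h₂ h₃ s₃ s₁ s₂ m₁ m₂ m₃
      · have h := O8_area (a₁ := a₃) (a₂ := a₁) (a₃ := a₂) (by linarith) hR h₃ h₁ h₂ t₃ t₁ m₂
        rw [O8_long m₂]
        have e : sin a₃ * sin a₁ * sin a₂ = sin a₁ * sin a₂ * sin a₃ := by ring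
        rw [e] at h
        linarith [g₁.2, g₃.2]
    · have h := O8_area (a₁ := a₂) (a₂ := a₃) (a₃ := a₁) (by linarith) hR h₂ h₃ h₁ t₂ t₃ m₁
      rw [O8_long m₁]
      have e : sin a₂ * sin a₃ * sin a₁ = sin a₁ * sin a₂ * sin a₃ := by ring
      rw [e] at h
      linarith [g₂.2, g₃.2]
  · have h := O8_area ha hR h₁ h₂ h₃ t₁ t₂ m₃
    rw [O8_long m₃]
    linarith [g₂.2, g₁.2]

/-- The inequality for edges. -/
theorem locE {x y l : ℝ} (h : Sp x y l) (hl : 2 ≤ l) :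
    eta x y l ≤ 2 * Hepta.Gf (4 * r2 - 2) l (√2) := by
  have hr := r2_lt6
  have hr' := r2_gt6
  have hpi := pi_lt_d6
  have hpi' := pi_gt_d6
  have hr2 : √2 = r2 := rfl
  rw [hr2]
  unfold Hepta.Gf
  rcases le_or_gt 1 (l / (2 * r2)) with h1 | h1
  · rw [arccos_eq_zero.2 h1]
    have h2 : 47 / 20 ≤ l := by
      rw [le_div_iff₀ (by positivity)] at h1
      linarith
    rw [O8_long h2]
    simp
  · set θ := arccos (l / (2 * r2)) with hθ
    have hlt : l < 2 * r2 := by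
      rw [div_lt_one (by positivity)] at h1
      exact h1
    have h0 : 0 < l / (2 * r2) := by positivity
    have hcos : cos θ = l / (2 * r2) := cos_arccos (by linarith) h1.le
    have hcl : l = 2 * r2 * cos θ := by
      rw [hcos]
      field_simp
    have hθ0 : 0 ≤ θ := arccos_nonneg _
    have hθ1 : θ ≤ π / 4 := by
      have h2 : π / 4 = arccos (√2 / 2) := by
        rw [← cos_pi_div_four, arccos_cos (by linarith) (by linarith)]
      rw [h2]
      apply arccos_le_arccos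
      rw [hr2, div_le_div_iff₀ (by norm_num) (by positivity)]
      nlinarith [r2_mul]
    have hc0 : 0 < cos θ := by rw [hcos]; exact h0
    have e : l ^ 2 / 8 * tan θ = sin (2 * θ) / 2 := by
      rw [tan_eq_sin_div_cos, sin_two_mul]
      have : l ^ 2 = 8 * cos θ ^ 2 := by
        rw [hcl]
        linear_combination (4 * cos θ ^ 2) * r2_sq
      rw [this]
      field_simp
    rw [e]
    have hs := mul_le_sin (x := 2 * θ) (by linarith) (by linarith)
    have hM : (4 * r2 - 2) / (2 * π) * θ = (2 * r2 - 1) / π * θ := by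
      field_simp
      ring
    have h5 : 2 / π * (2 * θ) = 4 / π * θ := by ring
    rw [h5] at hs
    have h6 : (1 - (r2 - 1 / 2)) * 4 / π * θ ≤ 2 * (sin (2 * θ) / 2 - (4 * r2 - 2) / (2 * π) * θ) := by
      rw [hM]
      have : (1 - (r2 - 1 / 2)) * 4 / π * θ = 4 / π * θ - 2 * ((2 * r2 - 1) / π * θ) := by ring
      rw [this]
      linarith
    refine le_trans ?_ h6
    rcases lt_or_ge l (47 / 20) with m | m
    · have h7 := (abs_le.1 (eta_abs h (by linarith))).2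
      have h8 : 1 / 2 ≤ θ := by
        by_contra hneg
        have h9 := one_sub_sq_div_two_le_cos (x := θ)
        have h10 : θ ^ 2 ≤ 1 / 4 := by nlinarith
        nlinarith
      have h11 : 109 / 1000 ≤ (1 - (r2 - 1 / 2)) * 4 / π := by
        rw [le_div_iff₀ pi_pos]
        nlinarith
      nlinarith
    · rw [O8_long m]
      have : 0 < 1 - (r2 - 1 / 2) := by linarith
      positivity

end Octa
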