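import Pool.Agent.H81.Oct.O8
import Pool.Agent.H69.Hep.A15
import Pool.Agent.H69.Hep.B4

/-! # O9: the global inequality for smoothed octagons -/

set_option autoImplicit false

namespace Octa

open Complex MeasureTheory Hepta Pool.H61.Sm

/-- the coordinates of a complex number -/
def toP (z : ℂ) : ℝ × ℝ := (z.re, z.im)

/-- The smoothed octagon with centre `c`, turned by the angle `θ`. -/
def Oc (c : ℂ) (θ : ℝ) : Set ℂ := {z | toP ((starRingEnd ℂ) (ui θ) * (z - c)) ∈ K0}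

/-! ### The disc is contained in the octagon -/

private theorem O9_C0 {z : ℝ × ℝ} (h : z.1 ^ 2 + z.2 ^ 2 ≤ 1) : C0 z := by
  intro t t1 t2
  have hr := r2_sq
  have hr0 := r2_gt6
  have hr1 := r2_lt6
  have ht : 0 < t := by linarith
  unfold uc vc
  set x := z.1
  set y := z.2
  have hρ : 0 ≤ 1 + 2 * r2 * t ^ 2 - 2 * t := by nlinarith [sq_nonneg (t - 1 / 2)]
  have h1 : r2 / 2 * x + (2 * r2 * t ^ 2 - r2 / 2) * y ≤ 1 + 2 * r2 * t ^ 2 - 2 * t := by
    apply le_of_abs_le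
    apply abs_le_of_sq_le_sq _ hρ
    have h2 : (r2 / 2 * x + (2 * r2 * t ^ 2 - r2 / 2) * y) ^ 2 ≤
        ((r2 / 2) ^ 2 + (2 * r2 * t ^ 2 - r2 / 2) ^ 2) * (x ^ 2 + y ^ 2) := by
      nlinarith [sq_nonneg (r2 / 2 * y - (2 * r2 * t ^ 2 - r2 / 2) * x)]
    have h3 : ((r2 / 2) ^ 2 + (2 * r2 * t ^ 2 - r2 / 2) ^ 2) * (x ^ 2 + y ^ 2) ≤
        ((r2 / 2) ^ 2 + (2 * r2 * t ^ 2 - r2 / 2) ^ 2) * 1 :=
      mul_le_mul_of_nonneg_left h (by positivity)
    have h4 : (1 + 2 * r2 * t ^ 2 - 2 * t) ^ 2 - ((r2 / 2) ^ 2 + (2 * r2 * t ^ 2 - r2 / 2) ^ 2) =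
        8 * r2 * t * ((t - 1 / 2) * (r2 / 2 - t)) := by
      linear_combination (-(1 / 2) - 2 * t ^ 2 + 2 * t) * hr
    have h5 : 0 ≤ 8 * r2 * t * ((t - 1 / 2) * (r2 / 2 - t)) := by
      have : 0 ≤ (t - 1 / 2) * (r2 / 2 - t) := mul_nonneg (by linarith) (by linarith)
      positivity
    linarith
  have e : (1 - r2 / 2 * (x - y)) / t + 2 * r2 * t * (1 - y) =
      (1 + 2 * r2 * t ^ 2 - (r2 / 2 * x + (2 * r2 * t ^ 2 - r2 / 2) * y)) / t := by
    field_simp
    ring
  rw [e, le_div_iff₀ ht]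
  linarith

theorem disc_sub {z : ℝ × ℝ} (h : z.1 ^ 2 + z.2 ^ 2 ≤ 1) : z ∈ K0 := by
  have hk : ∀ k : ℕ, (rot^[k] z).1 ^ 2 + (rot^[k] z).2 ^ 2 ≤ 1 := by
    intro k
    induction k with
    | zero => exact h
    | succ k ih =>
      rw [Function.iterate_succ_apply']
      refine le_trans (le_of_eq ?_) ih
      generalize rot^[k] z = w
      unfold rot
      have hr := r2_sq
      simp only
      linear_combination ((w.1 ^ 2 + w.2 ^ 2) / 2) * hr
  exact fun k => O9_C0 (hk k)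

/-! ### The reflection -/

private theorem O9_swap {z : ℝ × ℝ} (h : C0 z) : C0 (rot (z.1, -z.2)) := by
  intro t t1 t2
  have hr := r2_sq
  have hr0 := r2_gt6
  have hr1 := r2_lt6
  have ht : 0 < t := by linarith
  have k1 : 1 / 2 ≤ r2 / 4 / t := by
    rw [le_div_iff₀ ht]
    linarith
  have k2 : r2 / 4 / t ≤ r2 / 2 := by
    rw [div_le_iff₀ ht]
    nlinarith
  have h1 := h (r2 / 4 / t) k1 k2
  have e1 : uc (rot (z.1, -z.2)) = vc z := by
    unfold uc vc rot
    simp only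
    linear_combination (-(z.2) / 2) * hr
  have e2 : vc (rot (z.1, -z.2)) = uc z := by
    unfold uc vc rot
    simp only
    ring
  rw [e1, e2]
  refine le_trans h1 (le_of_eq ?_)
  have hr' : r2 ≠ 0 := r2_pos.ne'
  field_simp
  linear_combination (-8 * t ^ 2 * uc z + 2 * r2 * vc z) * hr

private theorem O9_conj_rot (z : ℝ × ℝ) : rot ((rot z).1, -(rot z).2) = (z.1, -z.2) := by
  have hr := r2_sq
  unfold rot
  ext
  · simp only
    linear_combination (z.1 / 2) * hr
  · simp only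
    linear_combination (-z.2 / 2) * hr

theorem K0_conj {z : ℝ × ℝ} (h : z ∈ K0) : (z.1, -z.2) ∈ K0 := by
  -- `rot ^ k (conj z) = conj (rot ^ (8 m - k) z)`
  have key : ∀ (k : ℕ) (w : ℝ × ℝ), w ∈ K0 → C0 (rot^[k] (w.1, -w.2)) := by
    intro k
    induction k with
    | zero =>
      intro w hw
      -- `conj w = rot (conj (rot w))`
      have h1 : C0 (rot w) := hw 1
      have h2 := O9_swap h1
      rw [O9_conj_rot] at h2
      exact h2
    | succ k ih =>
      intro w hw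
      -- `rot (conj w) = conj (rot ^ 7 w)`
      have h8 := rot_eight w
      rw [Function.iterate_succ_apply'] at h8
      have hw7 : rot^[7] w ∈ K0 := by
        rw [← K0_rot, h8]
        exact hw
      have h1 := ih _ hw7
      have h2 := O9_conj_rot (rot^[7] w)
      rw [h8] at h2
      rw [Function.iterate_succ_apply, h2]
      exact h1
  exact fun k => key k z h

/-! ### Properties of the placed octagon -/

private theorem O9_mem {c : ℂ} {θ : ℝ} {p : ℝ × ℝ} (hp : p ∈ K0) :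
    c + ui θ * ⟨p.1, p.2⟩ ∈ Oc c θ := by
  have hcs := Real.sin_sq_add_cos_sq θ
  have e : toP ((starRingEnd ℂ) (ui θ) * (c + ui θ * ⟨p.1, p.2⟩ - c)) = p := by
    rw [add_sub_cancel_left]
    unfold toP ui
    ext
    · simp only [mul_re, mul_im, conj_re, conj_im]
      linear_combination p.1 * hcs
    · simp only [mul_re, mul_im, conj_re, conj_im]
      linear_combination p.2 * hcs
  change toP _ ∈ K0
  rw [e]
  exact hp

private theorem O9_toP (u v : ℂ) (a b : ℝ) : toP (a • u + b • v) = a • toP u + b • toP v := by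
  unfold toP
  ext
  · simp
  · simp

theorem convex_Oc (c : ℂ) (θ : ℝ) : Convex ℝ (Oc c θ) := by
  intro x hx y hy a b ha hb hab
  have h := K0_convex hx hy ha hb hab
  rw [← O9_toP] at h
  change toP _ ∈ K0
  convert h using 2
  have hab' : ((a : ℝ) : ℂ) + ((b : ℝ) : ℂ) = 1 := by
    rw [← ofReal_add, hab, ofReal_one]
  simp only [real_smul]
  linear_combination ((starRingEnd ℂ) (ui θ) * c) * hab'

private theorem O9_cont (c : ℂ) (θ : ℝ) :
    Continuous fun z : ℂ => toP ((starRingEnd ℂ) (ui θ) * (z - c)) := by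
  have h : Continuous fun z : ℂ => (starRingEnd ℂ) (ui θ) * (z - c) := by fun_prop
  exact (Complex.continuous_re.comp h).prodMk (Complex.continuous_im.comp h)

theorem isClosed_Oc (c : ℂ) (θ : ℝ) : IsClosed (Oc c θ) :=
  K0_closed.preimage (O9_cont c θ)

private theorem O9_norm (c z : ℂ) (θ : ℝ) :
    (toP ((starRingEnd ℂ) (ui θ) * (z - c))).1 ^ 2 +
      (toP ((starRingEnd ℂ) (ui θ) * (z - c))).2 ^ 2 = normSq (z - c) := by
  have hcs := Real.sin_sq_add_cos_sq θ
  rw [normSq_apply]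
  unfold toP ui
  simp only [mul_re, mul_im, conj_re, conj_im]
  linear_combination ((z - c).re ^ 2 + (z - c).im ^ 2) * hcs

theorem ball_subset_Oc (c : ℂ) (θ : ℝ) : Metric.ball c 1 ⊆ interior (Oc c θ) := by
  refine interior_maximal ?_ Metric.isOpen_ball
  intro z hz
  rw [Metric.mem_ball, Complex.dist_eq] at hz
  change toP _ ∈ K0
  apply disc_sub
  rw [O9_norm, Complex.normSq_eq_norm_sq]
  nlinarith [norm_nonneg (z - c)]

theorem Oc_subset_ball (c : ℂ) (θ : ℝ) : Oc c θ ⊆ Metric.closedBall c (3 / 2) := by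
  intro z hz
  rw [Metric.mem_closedBall, Complex.dist_eq]
  obtain ⟨h1, h2⟩ := K0_bound hz
  have h3 := O9_norm c z θ
  rw [Complex.normSq_eq_norm_sq] at h3
  rw [← sq_le_one_iff_abs_le_one] at h1 h2
  apply le_of_sq_le_sq _ (by norm_num)
  rw [← h3]
  norm_num
  linarith

private theorem O9_side {c : ℂ} {θ : ℝ} {f : StrongDual ℝ ℂ} {u : ℝ}
    (h : ∀ a ∈ interior (Oc c θ), f a ≤ u) : ∀ a ∈ Oc c θ, f a ≤ u := by
  have hne : (interior (Oc c θ)).Nonempty :=
    ⟨c, ball_subset_Oc c θ (Metric.mem_ball_self one_pos)⟩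
  have h1 := (convex_Oc c θ).closure_interior_eq_closure_of_nonempty_interior hne
  rw [(isClosed_Oc c θ).closure_eq] at h1
  intro a ha
  rw [← h1] at ha
  have h2 : closure (interior (Oc c θ)) ⊆ {z | f z ≤ u} :=
    closure_minimal h (isClosed_le f.continuous continuous_const)
  exact h2 ha

private theorem O9_dt_add (c : ℂ) (θ ψ : ℝ) (p : ℝ × ℝ) :
    dt (c + ui θ * ⟨p.1, p.2⟩) (ui ψ) = dt c (ui ψ) +
      (p.1 * Real.cos (ψ - θ) + p.2 * Real.sin (ψ - θ)) := by
  unfold dt ui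
  rw [Real.cos_sub, Real.sin_sub]
  simp only [add_re, add_im, mul_re, mul_im]
  ring

theorem Oc_sep {c₁ c₂ : ℂ} {θ₁ θ₂ : ℝ}
    (h : Disjoint (interior (Oc c₁ θ₁)) (interior (Oc c₂ θ₂))) :
    ∃ ψ : ℝ, hs (ψ - θ₁) + hs (ψ + Real.pi - θ₂) ≤ dt (c₂ - c₁) (ui ψ) := by
  obtain ⟨f, u, hf1, hf2⟩ := geometric_hahn_banach_open (convex_Oc c₁ θ₁).interior
    isOpen_interior (convex_Oc c₂ θ₂).interior h
  have hH1 : ∀ a ∈ Oc c₁ θ₁, f a ≤ u := O9_side (fun a ha => (hf1 a ha).le)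
  have hH2 : ∀ a ∈ Oc c₂ θ₂, u ≤ f a := by
    intro a ha
    have := O9_side (f := -f) (u := -u) (fun a ha => by
      have := hf2 a ha
      rw [neg_apply]
      linarith) a ha
    rw [neg_apply] at this
    linarith
  have hflin : ∀ z : ℂ, f z = z.re * f 1 + z.im * f I := by
    intro z
    have e : z = z.re • (1 : ℂ) + z.im • I := by
      apply Complex.ext
      · simp
      · simp
    conv_lhs => rw [e]
    rw [map_add, map_smul, map_smul, smul_eq_mul, smul_eq_mul]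
  set w : ℂ := ⟨f 1, f I⟩ with hw
  have hfw : ∀ z : ℂ, f z = ‖w‖ * dt z (ui (arg w)) := by
    intro z
    rw [hflin]
    unfold dt ui
    have h1 : ‖w‖ * Real.cos (arg w) = f 1 := Complex.norm_mul_cos_arg w
    have h2 : ‖w‖ * Real.sin (arg w) = f I := Complex.norm_mul_sin_arg w
    rw [← h1, ← h2]
    ring
  have hw0 : 0 < ‖w‖ := by
    rw [norm_pos_iff]
    intro e
    have h1 := hf1 c₁ (ball_subset_Oc c₁ θ₁ (Metric.mem_ball_self one_pos))
    have h2 := hf2 c₂ (ball_subset_Oc c₂ θ₂ (Metric.mem_ball_self one_pos))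
    rw [hfw, e, norm_zero, zero_mul] at h1 h2
    linarith
  refine ⟨arg w, ?_⟩
  obtain ⟨p, hp, ep⟩ := hs_attain (arg w - θ₁)
  obtain ⟨q, hq, eq⟩ := hs_attain (arg w + Real.pi - θ₂)
  have h1 := hH1 _ (O9_mem (c := c₁) (θ := θ₁) hp)
  have h2 := hH2 _ (O9_mem (c := c₂) (θ := θ₂) hq)
  have h3 := h1.trans h2
  rw [hfw, hfw] at h3
  have h4 := le_of_mul_le_mul_left h3 hw0
  rw [O9_dt_add, O9_dt_add] at h4
  have hsub : dt (c₂ - c₁) (ui (arg w)) = dt c₂ (ui (arg w)) - dt c₁ (ui (arg w)) := by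
    unfold dt
    simp only [sub_re, sub_im]
    ring
  have e1 : Real.cos (arg w + Real.pi - θ₂) = -Real.cos (arg w - θ₂) := by
    rw [show arg w + Real.pi - θ₂ = arg w - θ₂ + Real.pi by ring, Real.cos_add_pi]
  have e2 : Real.sin (arg w + Real.pi - θ₂) = -Real.sin (arg w - θ₂) := by
    rw [show arg w + Real.pi - θ₂ = arg w - θ₂ + Real.pi by ring, Real.sin_add_pi]
  rw [e1, e2] at eq
  rw [hsub, ep, eq]
  linarith

private theorem O9_dt (z : ℂ) (ψ : ℝ) : dt z (ui ψ) = ‖z‖ * Real.cos (ψ - arg z) := by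
  rw [Real.cos_sub]
  have h1 := Complex.norm_mul_cos_arg z
  have h2 := Complex.norm_mul_sin_arg z
  change z.re * Real.cos ψ + z.im * Real.sin ψ = _
  rw [← h1, ← h2]
  ring

/-- The pair condition for two octagons. -/
theorem Sp_of_disjoint {c₁ c₂ : ℂ} {θ₁ θ₂ : ℝ}
    (h : Disjoint (interior (Oc c₁ θ₁)) (interior (Oc c₂ θ₂))) :
    Sp (arg (c₂ - c₁) - θ₁) (arg (c₁ - c₂) - θ₂) ‖c₁ - c₂‖ := by
  obtain ⟨ψ, hψ⟩ := Oc_sep h
  have hne : c₂ - c₁ ≠ 0 := by
    intro h0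
    have a1 := one_le_hs (ψ - θ₁)
    have a2 := one_le_hs (ψ + Real.pi - θ₂)
    rw [h0] at hψ
    have : dt 0 (ui ψ) = 0 := by
      unfold dt
      simp
    linarith
  have h3 := Complex.arg_neg_coe_angle hne
  rw [← Real.Angle.coe_add, Real.Angle.angle_eq_iff_two_pi_dvd_sub] at h3
  obtain ⟨n, hn⟩ := h3
  rw [neg_sub] at hn
  refine ⟨ψ - arg (c₂ - c₁), ?_⟩
  rw [O9_dt, norm_sub_rev] at hψ
  have e1 : arg (c₂ - c₁) - θ₁ + (ψ - arg (c₂ - c₁)) = ψ - θ₁ := by ring
  have e2 : arg (c₁ - c₂) - θ₂ + (ψ - arg (c₂ - c₁)) = ψ + Real.pi - θ₂ + n * (2 * Real.pi) := by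
    linarith
  rw [e1, e2, hs_turn]
  exact hψ

/-- The global inequality. -/
theorem oct_global {ι : Type*} [Fintype ι] [DecidableEq ι] (c : ι → ℂ) (θ : ι → ℝ)
    (hd : Pairwise fun i j => Disjoint (interior (Oc (c i) (θ i))) (interior (Oc (c j) (θ j)))) :
    (Fintype.card ι : ℝ) * (4 * r2 - 2) ≤
      (volume (⋃ i, Metric.ball (c i) (Real.sqrt 2))).toReal := by
  have hM : 4 * r2 - 2 ≤ 2 * Real.pi := by
    linarith [r2_lt6, Real.pi_gt_three]
  have hEd : ∀ i j, i ≠ j → Sp (arg (c j - c i) - θ i) (arg (c i - c j) - θ j) ‖c i - c j‖ :=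
    fun i j hij => Sp_of_disjoint (hd hij)
  have h2le : ∀ i j, i ≠ j → 2 ≤ ‖c i - c j‖ := fun i j hij => Sp_two (hEd i j hij) (norm_nonneg _)
  have hs' : Sep c := by
    intro i j hij
    rw [Complex.normSq_eq_norm_sq]
    have := h2le i j hij
    nlinarith
  refine global hs' hM (η := fun i j => eta (arg (c j - c i) - θ i) (arg (c i - c j) - θ j)
    ‖c i - c j‖) ?_ ?_ ?_
  · intro i j
    rw [eta_neg, norm_sub_rev (c j) (c i)]
  · intro i j hij
    exact locE (hEd i j hij) (h2le i j hij)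
  · intro i j k v R hS
    obtain ⟨a₁, a₂, a₃, h1, h2, h3, hsum, l3, l1, l2, ⟨n1, e1⟩, ⟨n2, e2⟩, ⟨n3, e3⟩⟩ :=
      hS.angles hs'
    have hpos := hS.pos
    have hij : i ≠ j := by
      rintro rfl
      simp [cr] at hpos
    have hik : i ≠ k := by
      rintro rfl
      simp [cr] at hpos
    have hjk : j ≠ k := by
      rintro rfl
      unfold cr at hpos
      linarith
    have hA := hEd i j hij
    have hB := hEd j k hjk
    have hC := hEd k i hik.symm
    have f2 : arg (c i - c j) - θ j = arg (c k - c j) - θ j + a₂ + n2 * (2 * Real.pi) := by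
      rw [e2]; ring
    have f3 : arg (c j - c k) - θ k = arg (c i - c k) - θ k + a₃ + n3 * (2 * Real.pi) := by
      rw [e3]; ring
    have f1 : arg (c k - c i) - θ i = arg (c j - c i) - θ i + a₁ + n1 * (2 * Real.pi) := by
      rw [e1]; ring
    have g : ∀ x : ℝ, x + ((0 : ℤ) : ℝ) * (2 * Real.pi) = x := by
      intro x
      push_cast
      ring
    have g' : ∀ (x : ℝ) (n : ℤ), x + n * (2 * Real.pi) + ((-n : ℤ) : ℝ) * (2 * Real.pi) = x := by
      intro x n
      push_cast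
      ring
    have hA' := Sp_turn 0 (-n2) hA
    have hB' := Sp_turn 0 (-n3) hB
    have hC' := Sp_turn 0 (-n1) hC
    rw [f2, g, g', l3] at hA'
    rw [f3, g, g', l1] at hB'
    rw [f1, g, g', l2] at hC'
    have hfin := locT hsum hS.R0 h1 h2 h3 hA' hB' hC'
    have t : ∀ (x y l : ℝ) (n : ℤ), eta x (y + n * (2 * Real.pi)) l = eta x y l := by
      intro x y l n
      have := eta_turn x y l 0 n
      rwa [g] at this
    beta_reduce
    rw [f1, f2, f3, t, t, t, l1, l2, l3, Gf_sum hS.R0 h1 h2 h3 hsum]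
    exact hfin

end Octa
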